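import Pool.Agent.H8.HP.Core

/-!
# Continuation of smooth solutions along paths
-/

open MeasureTheory Set Filter Topology
open scoped ENNReal NNReal ContDiff

namespace Pool.Agent.H8.HP

open Pool.Agent.K1H11.NS
open H459R3.NS (ee fr cube S SP Per D Rap IsSol)
open Pool.Agent.H356R3.NS (fc AdmissiblePeriodic critNorm)

/-- **Continuation of smooth solutions along paths.** -/
theorem along {ν T R : ℝ} (hν : 0 < ν) (hT : 0 ≤ T) (hR : 0 < R) {u : ℝ → E3 → E3} {p : ℝ → E3 → ℝ}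
    (hu : IsSol ν T u p) {v : ℝ → K → C3} (hv : ∀ t ∈ Icc 0 R, DH (v t)) (hcont : PathN NH R v)
    (huv : 0 < T → ∀ k, Tendsto (fun t => fc (u t) k) (𝓝[<] T) (𝓝 (v 0 k)))
    {w₀ : E3 → E3} {w : ℝ → E3 → E3} {q : ℝ → E3 → ℝ} (hw : AdmissiblePeriodic ν w₀ w q)
    (hm : ∀ i, ∫ x in cube, w₀ x i = 0) {ε : ℝ} (hε : 0 < ε) {r : ℝ} (hr : 0 < r) (hr2 : r < 2)
    {m : ℝ} (hm2 : 2 < m) {ψ : ℝ → ℝ} (hψ : Tendsto ψ (𝓝[>] 0) (𝓝 0)) :
    ∃ (U : ℝ → E3 → E3) (S : Finset ℝ),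
      (∀ s ∈ S, T ≤ s ∧ s ≤ T + R) ∧
      (∀ t, t < T → U t = u t) ∧
      (∀ t₀ t₁, T < t₀ → t₀ ≤ t₁ → (∀ s ∈ S, t₀ ≤ s → t₁ ≤ s) →
        ∃ (T' : ℝ) (u' : ℝ → E3 → E3) (p' : ℝ → E3 → ℝ), t₁ - t₀ < T' ∧ IsSol ν T' u' p' ∧
        ∀ s, 0 ≤ s → t₀ + s ≤ t₁ → u' s = U (t₀ + s)) ∧
      (∀ t₀, T + R < t₀ → ∃ p', AdmissiblePeriodic ν (U t₀) (fun t => U (t₀ + t)) p') ∧
      (∀ t, T + R + ε ≤ t → ∀ x i, |U t x i - w (t - (T + R)) x i| ≤ ε) ∧
      (∀ s ∈ S, ∀ ρ : ℝ, 0 < ρ → ∃ δ : ℝ, 0 < δ ∧ ∀ t, s < t → t ≤ s + δ → ∀ x i,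
        Real.sqrt (t - s) * |U t x i| ≤ ρ) ∧
      (∀ s ∈ S, ∃ L : ℝ, 0 < L ∧ ∀ q' : ℝ, 2 < q' → ∫⁻ t in Ioc s (s + L),
        (ENNReal.ofReal (Real.sqrt (t - s)) * ⨆ x, ‖U t x‖ₑ) ^ q' / ENNReal.ofReal (t - s) ≠ ⊤) ∧
      (∀ s ∈ S, ∃ L : ℝ, 0 < L ∧
        ∫⁻ t in Ioc s (s + L), (ENNReal.ofReal (ψ (t - s)) * ⨆ x, ‖U t x‖ₑ) ^ (2 : ℝ) ≠ ⊤) ∧
      (∀ t₀, T < t₀ → Tendsto (fun t => hm1 fun k => fc (U t) k - fc (U t₀) k) (𝓝 t₀) (𝓝 0)) ∧
      Tendsto (fun t => hm1 fun k => fc (U t) k - v 0 k) (𝓝[Ioi 0 \ {T}] T) (𝓝 0) ∧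
      (∀ m' : ℝ, 2 < m' → (∀ t₀, T < t₀ → Tendsto (fun t => critNorm m' fun k => fc (U t) k - fc (U t₀) k) (𝓝 t₀) (𝓝 0)) ∧
        (critNorm m' (v 0) ≠ ⊤ → Tendsto (fun t => critNorm m' fun k => fc (U t) k - v 0 k) (𝓝[>] T) (𝓝 0))) ∧
      (∀ t, 0 < t → t ≤ R → hm1 (fun k => fc (U (T + t)) k - v t k) ≤ ENNReal.ofReal ε) ∧
      (PathN A1 R v → (∃ E : Set ℝ, MeasurableSet E ∧ volume E ≤ ENNReal.ofReal ε ∧
          ∀ t, 0 < t → t ≤ R → t ∉ E → A1 (fun k => fc (U (T + t)) k - v t k) ≤ ENNReal.ofReal ε) ∧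
        ∫⁻ t in Ioc 0 R, A1 (fun k => fc (U (T + t)) k - v t k) ^ r ≤ ENNReal.ofReal ε) ∧
      (PathN (critNorm m) R v → ∀ t, 0 < t → t ≤ R → critNorm m (fun k => fc (U (T + t)) k - v t k) ≤ ENNReal.ofReal ε) ∧
      (∀ T' : ℝ, ∫⁻ t in Ioc 0 T', ∫⁻ x in cube, ‖U t x‖ₑ ^ 2 ≠ ⊤) ∧
      ∀ φ : ℝ → E3 → E3, TestField φ →
        IntegrableOn (fun z : ℝ × E3 => weakInt ν U φ z.1 z.2) (Ioi 0 ×ˢ cube) ∧
          (∫ z in Ioi (0 : ℝ) ×ˢ (cube : Set E3), weakInt ν U φ z.1 z.2) +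
            pairing (if 0 < T then fc (u 0) else v 0) (φ 0) = 0 := by
  classical
  obtain ⟨V, S, hV, hVW, hV2, hV3, hV4⟩ := core hν hR hv hcont hw hm hε hr hr2 hm2 hψ
  have hgl : ∀ t, T ≤ t → glue T u V t = V (t - T) := fun t ht => glue_right ht
  have hgT : ∀ t, 0 < t → glue T u V (T + t) = V t := fun t ht => by
    rw [hgl _ (by linarith), add_sub_cancel_left]
  have htr : Tendsto (fun t => t - T) (𝓝[>] T) (𝓝[>] 0) := by
    refine tendsto_nhdsWithin_iff.2 ⟨?_, ?_⟩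
    · have h1 : Tendsto (fun t => t - T) (𝓝 T) (𝓝 (T - T)) := (continuous_id.sub continuous_const).tendsto T
      rw [sub_self] at h1
      exact h1.mono_left nhdsWithin_le_nhds
    · filter_upwards [self_mem_nhdsWithin] with t ht
      have ht' : T < t := ht
      exact sub_pos.2 ht'
  have hright : Tendsto (fun t => hm1 fun k => fc (glue T u V t) k - v 0 k) (𝓝[>] T) (𝓝 0) := by
    refine (hV.cont0.comp htr).congr' ?_
    filter_upwards [self_mem_nhdsWithin] with t ht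
    have ht' : T ≤ t := le_of_lt ht
    simp only [Function.comp, hgl t ht']
  have hmemS : ∀ s, s ∈ S.image (fun s => T + s) ↔ s - T ∈ S := by
    intro s
    rw [Finset.mem_image]
    constructor
    · rintro ⟨s', h1, rfl⟩
      rwa [add_sub_cancel_left]
    · intro h
      exact ⟨s - T, h, by ring⟩
  refine ⟨glue T u V, S.image (fun s => T + s), fun s hs => ?_, fun t ht => glue_left ht,
    fun t₀ t₁ h0 h01 hno => ?_, fun t₀ ht₀ => ?_, fun t ht x i => ?_, fun s hs ρ hρ => ?_, fun s hs => ?_,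
    fun s hs => ?_, fun t₀ ht₀ => ?_, ?_, fun m' hm' => ⟨fun t₀ ht₀ => ?_, fun hm0 => ?_⟩, fun t ht htR => ?_, fun hA => ?_,
    fun hA t ht htR => ?_, ?_, fun φ hφ => ?_⟩
  · have h1 := hV.mem _ ((hmemS s).1 hs)
    exact ⟨by linarith [h1.1], by linarith [h1.2]⟩
  · obtain ⟨T', u', p', g1, g2, g3⟩ := hV.sol (t₀ - T) (t₁ - T) (by linarith) (by linarith) fun s hs hst => by
      have := hno (T + s) ((hmemS _).2 (by rwa [add_sub_cancel_left])) (by linarith)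
      linarith
    refine ⟨T', u', p', by linarith, g2, fun s hs hst => ?_⟩
    rw [g3 s hs (by linarith), hgl _ (by linarith)]
    congr 1; ring
  · obtain ⟨p', hp'⟩ := hV.adm (t₀ - T) (by linarith)
    refine ⟨p', ?_⟩
    rw [hgl t₀ (by linarith)]
    refine adm_congr' hp' fun t ht => ?_
    rw [hgl _ (by linarith)]
    congr 1; ring
  · rw [hgl t (by linarith)]
    have h1 := hV.final (t - T) (by linarith) x i
    have e1 : t - T - R = t - (T + R) := by ring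
    rw [e1] at h1
    exact h1
  · obtain ⟨δ, hδ, h3⟩ := hV.grow _ ((hmemS s).1 hs) ρ hρ
    have h4 := (hV.mem _ ((hmemS s).1 hs)).1
    refine ⟨δ, hδ, fun t h1 h2 x i => ?_⟩
    rw [hgl t (by linarith)]
    have h5 := h3 (t - T) (by linarith) (by linarith) x i
    have e1 : t - T - (s - T) = t - s := by ring
    rw [e1] at h5
    exact h5
  · obtain ⟨L, hL, h3⟩ := hV.growInt _ ((hmemS s).1 hs)
    have h4 := (hV.mem _ ((hmemS s).1 hs)).1
    refine ⟨L, hL, fun q' hq' => ?_⟩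
    have h5 := h3 q' hq'
    rw [lint_shift] at h5 ⊢
    refine ne_top_of_le_ne_top h5 (le_of_eq ?_)
    refine setLIntegral_congr_fun measurableSet_Ioc fun t ht => ?_
    have e1 : glue T u V (s + t) = V (s - T + t) := by
      rw [hgl _ (by linarith [ht.1])]
      congr 1; ring
    simp only [e1, add_sub_cancel_left]
  · obtain ⟨L, hL, h3⟩ := hVW _ ((hmemS s).1 hs)
    have h4 := (hV.mem _ ((hmemS s).1 hs)).1
    refine ⟨L, hL, ?_⟩
    rw [lint_shift] at h3 ⊢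
    refine ne_top_of_le_ne_top h3 (le_of_eq ?_)
    refine setLIntegral_congr_fun measurableSet_Ioc fun t ht => ?_
    have e1 : glue T u V (s + t) = V (s - T + t) := by
      rw [hgl _ (by linarith [ht.1])]
      congr 1; ring
    simp only [e1, add_sub_cancel_left]
  · have h1 := hV.cont (t₀ - T) (by linarith)
    have h2 : Tendsto (fun t => t - T) (𝓝 t₀) (𝓝 (t₀ - T)) := (continuous_id.sub continuous_const).tendsto t₀
    refine (h1.comp h2).congr' ?_
    filter_upwards [Ioi_mem_nhds ht₀] with t ht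
    simp only [Function.comp, hgl t (le_of_lt ht), hgl t₀ ht₀.le]
  · rcases hT.eq_or_lt with h | h
    · subst h
      have eset : (Ioi (0 : ℝ) \ {0}) = Ioi 0 := by
        ext t
        exact ⟨fun ht => ht.1, fun ht => ⟨ht, fun h' => (mem_Ioi.1 ht).ne' (mem_singleton_iff.1 h')⟩⟩
      rw [eset]
      exact hright
    · obtain ⟨a, hlim, -, -, -, -, -, hleft⟩ := left_limit hν.le h hu (m := fun i => ∫ x in cube, u 0 x i)
        fun i => rfl
      have hWH : ∀ t k, fc (u t) k = WH u t k := fun t k => by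
        funext i
        rw [fc_eq_fr]
        rfl
      have hav : a = v 0 := by
        funext k
        refine tendsto_nhds_unique (hlim k) ((huv h k).congr fun t => hWH t k)
      have hle : 𝓝[Ioi 0 \ {T}] T ≤ 𝓝[<] T ⊔ 𝓝[>] T := by
        rw [nhdsLT_sup_nhdsGT]
        exact nhdsWithin_mono T fun t ht => ht.2
      refine Tendsto.mono_left ?_ hle
      refine Tendsto.sup ?_ hright
      refine hleft.congr' ?_
      filter_upwards [self_mem_nhdsWithin] with t ht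
      have ht' : t < T := ht
      refine tsum_congr fun k => ?_
      simp only [glue_left (u := u) (V := V) ht', hWH, hav]
  · have h1 := hV.contC m' hm' (t₀ - T) (by linarith)
    have h2 : Tendsto (fun t => t - T) (𝓝 t₀) (𝓝 (t₀ - T)) := (continuous_id.sub continuous_const).tendsto t₀
    refine (h1.comp h2).congr' ?_
    filter_upwards [Ioi_mem_nhds ht₀] with t ht
    simp only [Function.comp, hgl t (le_of_lt ht), hgl t₀ ht₀.le]
  · refine ((hV.contC0 m' hm' hm0).comp htr).congr' ?_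
    filter_upwards [self_mem_nhdsWithin] with t ht
    have ht' : T ≤ t := le_of_lt ht
    simp only [Function.comp, hgl t ht']
  · rw [hgT t ht]
    exact hV2 t ht htR
  · obtain ⟨⟨E, E1, E2, E3⟩, hint⟩ := hV3 hA
    refine ⟨⟨E, E1, E2, fun t ht htR htE => ?_⟩, ?_⟩
    · rw [hgT t ht]
      exact E3 t ht htR htE
    · refine le_trans (le_of_eq ?_) hint
      refine setLIntegral_congr_fun measurableSet_Ioc fun t ht => ?_
      simp only [hgT t ht.1]
  · rw [hgT t ht]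
    exact hV4 hA t ht htR
  · rcases hT.eq_or_lt with h | h
    · subst h
      intro T'
      refine ne_top_of_le_ne_top (hV.l2 T') (le_of_eq ?_)
      refine setLIntegral_congr_fun measurableSet_Ioc fun t ht => ?_
      simp only [hgl t ht.1.le, sub_zero]
    · exact glue_sq hν.le h hu hV.l2
  · rcases hT.eq_or_lt with h | h
    · subst h
      obtain ⟨w1, w2⟩ := hV.weak φ hφ
      have mr : MeasurableSet (Ioi (0 : ℝ) ×ˢ (cube : Set E3)) := measurableSet_Ioi.prod measurableSet_Icc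
      have hr : EqOn (fun z : ℝ × E3 => weakInt ν V φ z.1 z.2) (fun z : ℝ × E3 => weakInt ν (glue 0 u V) φ z.1 z.2)
          (Ioi 0 ×ˢ cube) := by
        intro z hz
        show weakInt ν V φ z.1 z.2 = weakInt ν (glue 0 u V) φ z.1 z.2
        unfold weakInt
        rw [hgl z.1 (le_of_lt hz.1), sub_zero]
      refine ⟨w1.congr_fun hr mr, ?_⟩
      have e2 : ∫ z in Ioi (0 : ℝ) ×ˢ (cube : Set E3), weakInt ν (glue 0 u V) φ z.1 z.2 =
          ∫ z in Ioi (0 : ℝ) ×ˢ (cube : Set E3), weakInt ν V φ z.1 z.2 := (setIntegral_congr_fun mr hr).symm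
      rw [e2, if_neg (lt_irrefl _)]
      exact w2
    · have hlim : ∀ k, Tendsto (fun t => WH u t k) (𝓝[<] T) (𝓝 (v 0 k)) := fun k =>
        (huv h k).congr fun t => by
          funext i
          rw [fc_eq_fr]
          rfl
      obtain ⟨w1, w2⟩ := weak_glue hν.le h hu hlim hV.weak hφ
      refine ⟨w1, ?_⟩
      rw [if_pos h, pairing_zero h hu hφ]
      exact w2

end Pool.Agent.H8.HP
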