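import Pool.Agent.H8.HP.WF

/-!
# The h-principle with finitely many singular times
-/

open MeasureTheory Set Filter Topology
open scoped ENNReal NNReal ContDiff

namespace Pool.Agent.H8.HP

open Pool.Agent.K1H11.NS
open H459R3.NS (ee fr cube S SP Per D Rap IsSol)
open Pool.Agent.H356R3.NS (fc AdmissiblePeriodic critNorm)

/-- the physical properties of the flow -/
structure PFlow (ν R ε : ℝ) (S : Finset ℝ) (a : K → C3) (w U : ℝ → E3 → E3) : Prop where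
  zero_mem : (0 : ℝ) ∈ S
  mem : ∀ s ∈ S, 0 ≤ s ∧ s ≤ R
  sp : ∀ t, 0 < t → ∀ i, SP fun x => U t x i
  mean : ∀ t, 0 < t → fc (U t) 0 = 0
  sol : ∀ t₀ t₁, 0 < t₀ → t₀ ≤ t₁ → (∀ s ∈ S, t₀ ≤ s → t₁ ≤ s) →
    ∃ (T' : ℝ) (u' : ℝ → E3 → E3) (p' : ℝ → E3 → ℝ), t₁ - t₀ < T' ∧ IsSol ν T' u' p' ∧
      ∀ r, 0 ≤ r → t₀ + r ≤ t₁ → u' r = U (t₀ + r)
  adm : ∀ t₀, R < t₀ → ∃ p, AdmissiblePeriodic ν (U t₀) (fun t => U (t₀ + t)) p
  final : ∀ t, R + ε ≤ t → ∀ x i, |U t x i - w (t - R) x i| ≤ ε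
  grow : ∀ s ∈ S, ∀ ρ : ℝ, 0 < ρ → ∃ δ : ℝ, 0 < δ ∧ ∀ t, s < t → t ≤ s + δ → ∀ x i, Real.sqrt (t - s) * |U t x i| ≤ ρ
  growInt : ∀ s ∈ S, ∃ L' : ℝ, 0 < L' ∧ ∀ q : ℝ, 2 < q → ∫⁻ t in Ioc s (s + L'),
      (ENNReal.ofReal (Real.sqrt (t - s)) * ⨆ x, ‖U t x‖ₑ) ^ q / ENNReal.ofReal (t - s) ≠ ⊤
  cont : ∀ t₀, 0 < t₀ → Tendsto (fun t => hm1 fun k => fc (U t) k - fc (U t₀) k) (𝓝 t₀) (𝓝 0)
  cont0 : Tendsto (fun t => hm1 fun k => fc (U t) k - a k) (𝓝[>] 0) (𝓝 0)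
  contC : ∀ m : ℝ, 2 < m → ∀ t₀, 0 < t₀ → Tendsto (fun t => critNorm m fun k => fc (U t) k - fc (U t₀) k) (𝓝 t₀) (𝓝 0)
  contC0 : ∀ m : ℝ, 2 < m → critNorm m a ≠ ⊤ →
    Tendsto (fun t => critNorm m fun k => fc (U t) k - a k) (𝓝[>] 0) (𝓝 0)
  l2 : ∀ T : ℝ, ∫⁻ t in Ioc 0 T, ∫⁻ x in cube, ‖U t x‖ₑ ^ 2 ≠ ⊤
  weak : ∀ φ : ℝ → E3 → E3, TestField φ →
    IntegrableOn (fun z : ℝ × E3 => weakInt ν U φ z.1 z.2) (Ioi 0 ×ˢ cube) ∧
      (∫ z in Ioi (0 : ℝ) ×ˢ (cube : Set E3), weakInt ν U φ z.1 z.2) + pairing a (φ 0) = 0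

lemma isSol_mono {ν T T' : ℝ} {u : ℝ → E3 → E3} {p : ℝ → E3 → ℝ} (h : IsSol ν T u p) (hT : T' ≤ T) :
    IsSol ν T' u p where
  smooth_u := h.smooth_u.mono (prod_mono (Ico_subset_Ico_right hT) subset_rfl)
  smooth_p := h.smooth_p.mono (prod_mono (Ico_subset_Ico_right hT) subset_rfl)
  per_u := fun t ht => h.per_u t ⟨ht.1, ht.2.trans_le hT⟩
  per_p := fun t ht => h.per_p t ⟨ht.1, ht.2.trans_le hT⟩
  divfree := fun t ht => h.divfree t ⟨ht.1, ht.2.trans_le hT⟩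
  momentum := fun t ht => h.momentum t ⟨ht.1, ht.2.trans_le hT⟩

lemma isSol_congr {ν T : ℝ} {u u' : ℝ → E3 → E3} {p : ℝ → E3 → ℝ} (h : IsSol ν T u p)
    (he : ∀ t ∈ Ico 0 T, u' t = u t) : IsSol ν T u' p where
  smooth_u := h.smooth_u.congr fun z hz => by
    show u' z.1 z.2 = u z.1 z.2
    rw [he z.1 hz.1]
  smooth_p := h.smooth_p
  per_u := fun t ht => by rw [he t ht]; exact h.per_u t ht
  per_p := h.per_p
  divfree := fun t ht => by rw [he t ht]; exact h.divfree t ht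
  momentum := fun t ht x i => by
    have h1 : (fun s => u' s x i) =ᶠ[𝓝 t] fun s => u s x i := by
      filter_upwards [Ioo_mem_nhds ht.1 ht.2] with s hs
      rw [he s ⟨hs.1.le, hs.2⟩]
    rw [h1.deriv_eq, he t ⟨ht.1.le, ht.2⟩]
    exact h.momentum t ht x i

/-- two-sided neighbourhoods without singular times -/
lemma both_free (S : Finset ℝ) {t : ℝ} (h0 : 0 < t) (hS : t ∉ S) : ∃ a b, 0 < a ∧ a < t ∧ t < b ∧
    ∀ s ∈ S, a ≤ s → b ≤ s := by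
  obtain ⟨r, hr0, hr1, hr2⟩ := left_free S h0
  obtain ⟨r', hr3, -, hr4⟩ := right_free (L := t + 1) S (by linarith) hS
  refine ⟨r, r', hr0, hr1, hr3, fun s hs hrs => ?_⟩
  have h1 := hr2 s hs hrs
  exact hr4 s hs h1

lemma Uf_shift (V : Fam) (R t : ℝ) : Uf 0 (fun k s => V k (R + s)) t = Uf 0 V (R + t) := by
  funext x i
  unfold Uf
  simp only [smul_zero]

theorem core {ν : ℝ} (hν : 0 < ν) {R : ℝ} (hR : 0 < R) {v : ℝ → K → C3} (hv : ∀ t ∈ Icc 0 R, DH (v t))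
    (hcont : PathN NH R v) {w₀ : E3 → E3} {w : ℝ → E3 → E3} {q : ℝ → E3 → ℝ} (hw : AdmissiblePeriodic ν w₀ w q)
    (hm : ∀ i, ∫ x in cube, w₀ x i = 0) {ε : ℝ} (hε : 0 < ε) {p : ℝ} (hp : 0 < p) (hp2 : p < 2)
    {m : ℝ} (hm2 : 2 < m) {ψ : ℝ → ℝ} (hψ : Tendsto ψ (𝓝[>] 0) (𝓝 0)) :
    ∃ (U : ℝ → E3 → E3) (S : Finset ℝ), PFlow ν R ε S (v 0) w U ∧
      (∀ s ∈ S, ∃ L' : ℝ, 0 < L' ∧
        ∫⁻ t in Ioc s (s + L'), (ENNReal.ofReal (ψ (t - s)) * ⨆ x, ‖U t x‖ₑ) ^ (2 : ℝ) ≠ ⊤) ∧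
      (∀ t, 0 < t → t ≤ R → hm1 (fun k => fc (U t) k - v t k) ≤ ENNReal.ofReal ε) ∧
      (PathN A1 R v → (∃ E : Set ℝ, MeasurableSet E ∧ volume E ≤ ENNReal.ofReal ε ∧
          ∀ t, 0 < t → t ≤ R → t ∉ E → A1 (fun k => fc (U t) k - v t k) ≤ ENNReal.ofReal ε) ∧
        ∫⁻ t in Ioc 0 R, A1 (fun k => fc (U t) k - v t k) ^ p ≤ ENNReal.ofReal ε) ∧
      (PathN (critNorm m) R v → ∀ t, 0 < t → t ≤ R → critNorm m (fun k => fc (U t) k - v t k) ≤ ENNReal.ofReal ε) := by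
  have hpi := Real.pi_pos
  have hc : 0 < 4 * Real.pi ^ 2 * ν := by positivity
  have hsp0 : ∀ i, SP fun x => w₀ x i := by
    intro i
    have := (adm_isSol hw 1).sp (t := 0) ⟨le_rfl, one_pos⟩ i
    rwa [hw.initial] at this
  have hdw : ∀ x, ∑ i, H459R3.NS.pd i (fun y => w₀ y i) x = 0 := by
    intro x
    have := (adm_isSol hw 1).divfree 0 ⟨le_rfl, one_pos⟩ x
    rwa [hw.initial] at this
  obtain ⟨a, ha, W, hW, hWphys⟩ := conv_sol hν hw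
  have hD : SD (FV w₀) := ⟨FV_sym w₀, funext fun i => FV_zero hsp0 i, FV_rr hsp0, FV_dt hsp0 hdw⟩
  set e := min ε 1 with he
  have he0 : 0 < e := lt_min hε one_pos
  have he1 : e ≤ 1 := min_le_right _ _
  have heε : e ≤ ε := min_le_left _ _
  obtain ⟨S, V, s1, s2, s3, s4, s5, s6, s7, s8⟩ := flow_main (wgt_Wgt hψ) hc hR hv hcont hD ha hW he0
    hp hp2 hm2
  have hF : ∀ t : ℝ, ∃ L : ℝ, t < R + L ∧ Flow (4 * Real.pi ^ 2 * ν) S (R + L) (v 0) V := fun t =>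
    ⟨|t| + 1, by have := le_abs_self t; linarith, (s3 _ (by positivity)).1⟩
  have hSD : ∀ t, 0 < t → SD (at' V t) := by
    intro t ht
    obtain ⟨L, h1, h2⟩ := hF t
    exact h2.sd t ht h1.le
  have hfc : ∀ t, 0 < t → fc (Uf 0 V t) = at' V t := by
    intro t ht
    obtain ⟨L, h1, h2⟩ := hF t
    exact flow_fc h2 ht h1.le
  have hsp : ∀ t, 0 < t → ∀ i, SP fun x => Uf 0 V t x i := fun t ht i => Uf_SP (hSD t ht) i
  have hmean : ∀ t, 0 < t → fc (Uf 0 V t) 0 = 0 := fun t ht => by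
    rw [hfc t ht]
    exact (hSD t ht).z
  have hsol : ∀ t₀ t₁, 0 < t₀ → t₀ ≤ t₁ → (∀ s ∈ S, t₀ ≤ s → t₁ ≤ s) →
      ∃ (T' : ℝ) (u' : ℝ → E3 → E3) (p' : ℝ → E3 → ℝ), t₁ - t₀ < T' ∧ IsSol ν T' u' p' ∧
      ∀ r, 0 ≤ r → t₀ + r ≤ t₁ → u' r = Uf 0 V (t₀ + r) := by
    intro t₀ t₁ h0 h01 hno
    obtain ⟨L, h1, h2⟩ := hF t₁
    exact flow_isSol hν h2 h0 h01 h1.le hno
  have hcontU : ∀ t₀, 0 < t₀ → Tendsto (fun t => hm1 fun k => fc (Uf 0 V t) k - fc (Uf 0 V t₀) k) (𝓝 t₀) (𝓝 0) := by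
    intro t₀ h0
    obtain ⟨L, h1, h2⟩ := hF t₀
    refine (hm1_tendsto (flow_contNH hc h2 h0 h1)).congr' ?_
    filter_upwards [Ioi_mem_nhds h0] with t ht
    rw [hfc t ht, hfc t₀ h0]
    rfl
  have hcont0 : Tendsto (fun t => hm1 fun k => fc (Uf 0 V t) k - v 0 k) (𝓝[>] 0) (𝓝 0) := by
    have h1 : Tendsto (fun t => NH (at' V t - v 0)) (𝓝[>] 0) (𝓝 0) := by
      rw [ENNReal.tendsto_nhds_zero]
      intro ρ hρ
      obtain ⟨ρ', hρ', hρρ⟩ : ∃ ρ' : ℝ, 0 < ρ' ∧ ENNReal.ofReal ρ' ≤ ρ := by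
        rcases eq_or_ne ρ ⊤ with h | h
        · exact ⟨1, one_pos, by rw [h]; exact le_top⟩
        · exact ⟨ρ.toReal, ENNReal.toReal_pos hρ.ne' h, by rw [ENNReal.ofReal_toReal h]⟩
      obtain ⟨δ, hδ, h3⟩ := (s3 1 one_pos).1.nh0 ρ' hρ'
      filter_upwards [Ioc_mem_nhdsGT hδ] with t ht
      exact (h3 t ht.1 ht.2).trans hρρ
    refine (hm1_tendsto h1).congr' ?_
    filter_upwards [self_mem_nhdsWithin] with t ht
    rw [hfc t ht]
    rfl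
  have hcontC : ∀ m : ℝ, 2 < m → ∀ t₀, 0 < t₀ →
      Tendsto (fun t => critNorm m fun k => fc (Uf 0 V t) k - fc (Uf 0 V t₀) k) (𝓝 t₀) (𝓝 0) := by
    intro m hm t₀ h0
    obtain ⟨L, h1, h2⟩ := hF t₀
    refine (flow_contN (critNorm_goodN (by linarith)) h2 (h2.crr m hm) h0 h1).congr' ?_
    filter_upwards [Ioi_mem_nhds h0] with t ht
    rw [hfc t ht, hfc t₀ h0]
    rfl
  have hcontC0 : ∀ m : ℝ, 2 < m → critNorm m (v 0) ≠ ⊤ →
      Tendsto (fun t => critNorm m fun k => fc (Uf 0 V t) k - v 0 k) (𝓝[>] 0) (𝓝 0) := by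
    intro m hm hma
    have h1 : Tendsto (fun t => critNorm m (at' V t - v 0)) (𝓝[>] 0) (𝓝 0) := by
      refine tendsto_right_of fun ρ hρ => ?_
      simp_rw [zero_add]
      exact (s3 1 one_pos).1.cr0 m hm hma ρ hρ
    refine h1.congr' ?_
    filter_upwards [self_mem_nhdsWithin] with t ht
    rw [hfc t ht]
    rfl
  have hl2 : ∀ T : ℝ, ∫⁻ t in Ioc 0 T, ∫⁻ x in cube, ‖Uf 0 V t x‖ₑ ^ 2 ≠ ⊤ := by
    intro T
    obtain ⟨L, h1, h2⟩ := hF T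
    exact ne_top_of_le_ne_top (flow_l2 h2) (lintegral_mono_set (Ioc_subset_Ioc_right h1.le))
  have ha : hm1 (v 0) ≠ ⊤ := by
    rw [hm1_eq]
    exact ENNReal.pow_ne_top (hv 0 ⟨le_rfl, hR.le⟩).nh
  refine ⟨Uf 0 V, S, ⟨s2, s1, hsp, hmean, hsol, fun t₀ ht₀ => ?_, fun t ht x i => ?_, fun s hs ρ hρ => ?_,
    fun s hs => ?_, hcontU, hcont0, hcontC, hcontC0, hl2, fun φ hφ => ?_⟩,
    fun s hs => flow_growthW hψ (s3 1 one_pos).1 (s3 1 one_pos).2 hs, fun t ht htR => ?_, fun hA => ?_,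
    fun hA t ht htR => ?_⟩
  · have h1 : ∀ t0, 0 < t0 → SD (at' (fun k s => V k (R + s)) t0) ∧ ∃ a' : Wt, Sup a' ∧ ∃ z : Fam,
        Sol (4 * Real.pi ^ 2 * ν) a' (at' (fun k s => V k (R + s)) t0) z ∧
          ∀ k s, 0 ≤ s → z k s = (fun k s => V k (R + s)) k (t0 + s) := by
      intro t0 ht0
      obtain ⟨q1, a', ha', z, hz1, hz2⟩ := s5 (R + t0) (by linarith)
      refine ⟨q1, a', ha', z, hz1, fun k s hs => ?_⟩
      rw [hz2 k s hs, add_assoc]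
    obtain ⟨p', hp'⟩ := Uf_adm (m := 0) h1 (t0 := t₀ - R) (by linarith)
    refine ⟨p', ?_⟩
    have e1 : R + (t₀ - R) = t₀ := by ring
    have e2 : ∀ s, R + (t₀ - R + s) = t₀ + s := fun s => by ring
    simp_rw [Uf_shift, e2] at hp'
    rw [e1] at hp'
    exact hp'
  · have hm0 : (fun i => ∫ y in cube, w₀ y i) = (0 : E3) := funext hm
    have htR : 0 < t - R := by linarith
    have ht0 : 0 < t := by linarith
    have e1 := hWphys (t - R) htR.le x i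
    rw [hm0, hm] at e1
    obtain ⟨q1, q2⟩ := s6 t (by linarith)
    have s1 : Summable fun k => V k t i * ex k (x - t • (0 : E3)) := by
      refine Summable.of_norm_bounded (hSD t ht0).rr.summ fun k => ?_
      rw [norm_mul, norm_ex, mul_one]; exact norm_le_pi_norm _ i
    have s2 : Summable fun k => cf' W i k (t - R) * ex k (x - (t - R) • (0 : E3)) := by
      refine Summable.of_norm_bounded ((hW.dom' (by assumption)).sn (t - R)) fun k => ?_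
      rw [norm_mul, norm_ex, mul_one]; exact norm_le_pi_norm _ i
    have e0 : ∀ r : ℝ, x - r • (0 : E3) = x := fun r => by rw [smul_zero, sub_zero]
    have e2 : Uf 0 V t x i - w (t - R) x i = (∑' k, (V k t i * ex k (x - t • (0 : E3)) -
        cf' W i k (t - R) * ex k (x - (t - R) • (0 : E3)))).re := by
      rw [← e1, s1.tsum_sub s2, Complex.sub_re]
      unfold Uf GS SF
      simp only [Pi.zero_apply]
      ring
    rw [e2]
    refine (Complex.abs_re_le_norm _).trans (le_trans ?_ (q2.trans heε))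
    refine tsum_of_norm_bounded q1.hasSum fun k => ?_
    rw [e0, e0, ← sub_mul, norm_mul, norm_ex, mul_one]
    exact norm_le_pi_norm (V k t - W k (t - R)) i
  · exact flow_growth0 (s3 1 one_pos).1 hs hρ
  · exact flow_growth (s3 1 one_pos).1 hs
  · refine weak_of_pieces hν S.finite_toSet ha (hv 0 ⟨le_rfl, hR.le⟩).z hsp hmean (fun t ht htS => ?_) hcontU hcont0
      hl2 hφ
    obtain ⟨a, b, h1, h2, h3, h4⟩ := both_free S ht (by simpa using htS)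
    obtain ⟨T', u', p', g1, g2, g3⟩ := hsol a b h1 (h2.trans h3).le h4
    refine ⟨a, b, h1, h2, h3, p', ?_⟩
    have g4 : IsSol ν (b - a) u' p' := isSol_mono g2 g1.le
    exact isSol_congr g4 fun r hr => (g3 r hr.1 (by linarith [hr.2])).symm
  · rw [hm1_eq, hfc t ht]
    have h1 := s4 t ht htR
    refine (pow_le_pow_left₀ (by positivity) h1 2).trans ?_
    rw [← ENNReal.ofReal_pow he0.le]
    apply ENNReal.ofReal_le_ofReal
    nlinarith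
  · obtain ⟨⟨E, E1, E2, E3⟩, hint⟩ := s7 hA
    refine ⟨⟨E, E1, E2.trans (ENNReal.ofReal_le_ofReal heε), fun t ht htR htE => ?_⟩, ?_⟩
    · rw [hfc t ht]
      exact (E3 t ht htR htE).trans (ENNReal.ofReal_le_ofReal heε)
    · refine le_trans (le_of_eq ?_) (hint.trans (ENNReal.ofReal_le_ofReal heε))
      refine setLIntegral_congr_fun measurableSet_Ioc fun t ht => ?_
      simp only [hfc t ht.1]
      rfl
  · rw [hfc t ht]
    exact (s8 hA t ht htR).trans (ENNReal.ofReal_le_ofReal heε)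

end Pool.Agent.H8.HP
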