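import Pool.Agent.H8.HP.Phys2
import Pool.Agent.H8.NS.Lp

/-!
# The growth of the flow, measured with a weight
-/

open MeasureTheory Set Filter Topology
open scoped ENNReal NNReal ContDiff

namespace Pool.Agent.H8.HP

open Pool.Agent.K1H11.NS
open H459R3.NS (ee fr cube S SP Per D Rap IsSol)
open Pool.Agent.H356R3.NS (fc critNorm)

/-- a monotone weight above a given function which tends to zero -/
noncomputable def wgt (ψ : ℝ → ℝ) (t : ℝ) : ℝ≥0∞ := min 1 (⨆ s ∈ Ioc 0 t, ENNReal.ofReal (ψ s))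

lemma wgt_Wgt {ψ : ℝ → ℝ} (hψ : Tendsto ψ (𝓝[>] 0) (𝓝 0)) : Wgt (wgt ψ) where
  mono := fun t t' h => min_le_min le_rfl (biSup_mono fun s hs => ⟨hs.1, hs.2.trans h⟩)
  le_one := fun t => min_le_left _ _
  lim := by
    have h1 : Tendsto (fun t => ENNReal.ofReal (ψ t)) (𝓝[>] 0) (𝓝 0) := by
      have := ENNReal.tendsto_ofReal hψ
      rwa [ENNReal.ofReal_zero] at this
    rw [ENNReal.tendsto_nhds_zero] at h1 ⊢
    intro e he
    have h2 := h1 e he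
    rw [Filter.Eventually, mem_nhdsGT_iff_exists_Ioo_subset] at h2
    obtain ⟨δ, hδ, hδ'⟩ := h2
    filter_upwards [Ioo_mem_nhdsGT (show (0 : ℝ) < δ from hδ)] with t ht
    refine (min_le_right _ _).trans (iSup₂_le fun s hs => ?_)
    exact hδ' ⟨hs.1, hs.2.trans_lt ht.2⟩

lemma le_wgt {ψ : ℝ → ℝ} (hψ : Tendsto ψ (𝓝[>] 0) (𝓝 0)) : ∃ δ : ℝ, 0 < δ ∧ ∀ t, 0 < t → t ≤ δ →
    ENNReal.ofReal (ψ t) ≤ wgt ψ t := by
  have h1 : ∀ᶠ t in 𝓝[>] (0 : ℝ), ψ t < 1 := hψ.eventually (gt_mem_nhds one_pos)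
  rw [Filter.Eventually, mem_nhdsGT_iff_exists_Ioo_subset] at h1
  obtain ⟨δ, hδ, hδ'⟩ := h1
  have hδ0 : (0 : ℝ) < δ := hδ
  refine ⟨δ / 2, by positivity, fun t ht htδ => le_min ?_ ?_⟩
  · have h2 : ψ t < 1 := hδ' ⟨ht, by linarith⟩
    calc ENNReal.ofReal (ψ t) ≤ ENNReal.ofReal 1 := ENNReal.ofReal_le_ofReal h2.le
      _ = 1 := ENNReal.ofReal_one
  · exact le_iSup₂_of_le t ⟨ht, le_rfl⟩ le_rfl

lemma Uf_sup_le {V : Fam} {t : ℝ} (h : SD (at' V t)) : ⨆ x, ‖Uf 0 V t x‖ₑ ≤ ∑' k, ‖V k t‖ₑ := by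
  refine iSup_le fun x => ?_
  have hs : Summable fun k => ‖V k t‖ := h.rr.summ
  have e1 : ∑' k, ‖V k t‖ₑ = ENNReal.ofReal (∑' k, ‖V k t‖) := by
    rw [ENNReal.ofReal_tsum_of_nonneg (fun _ => norm_nonneg _) hs]
    exact tsum_congr fun k => (ofReal_norm _).symm
  rw [e1, ← ofReal_norm]
  apply ENNReal.ofReal_le_ofReal
  rw [pi_norm_le_iff_of_nonneg (tsum_nonneg fun _ => norm_nonneg _)]
  intro i
  have h1 := Uf_abs_le (m := 0) h x i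
  rw [Real.norm_eq_abs]
  simpa using h1

/-- The growth after the singular times. -/
theorem flow_growthW {ψ : ℝ → ℝ} (hψ : Tendsto ψ (𝓝[>] 0) (𝓝 0)) {c : ℝ} {S : Finset ℝ} {L : ℝ} {a : K → C3} {V : Fam}
    (h : Flow c S L a V) (hW : FW (wgt ψ) S L V) {s : ℝ} (hs : s ∈ S) :
    ∃ L' : ℝ, 0 < L' ∧ ∫⁻ t in Ioc s (s + L'), (ENNReal.ofReal (ψ (t - s)) * ⨆ x, ‖Uf 0 V t x‖ₑ) ^ (2 : ℝ) ≠ ⊤ := by
  obtain ⟨hs0, hsL⟩ := h.hS s hs
  obtain ⟨L1, q1, q2, q3⟩ := hW s hs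
  obtain ⟨δ, hδ, hδ'⟩ := le_wgt hψ
  refine ⟨min L1 δ, lt_min q1 hδ, ?_⟩
  rw [lint_shift]
  refine ne_top_of_le_ne_top q3 ?_
  refine le_trans ?_ (lintegral_mono_set (Ioc_subset_Ioc_right (min_le_left L1 δ)))
  refine setLIntegral_mono' measurableSet_Ioc fun t ht => ?_
  have h1 := ht.2.trans (min_le_left _ _)
  have h2 := ht.2.trans (min_le_right _ _)
  apply ENNReal.rpow_le_rpow _ (by norm_num)
  rw [add_sub_cancel_left]
  exact mul_le_mul' (hδ' t ht.1 h2) (Uf_sup_le (h.sd (s + t) (by linarith [ht.1]) (by linarith)))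

end Pool.Agent.H8.HP
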