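import Pool.Agent.H8.NS.Main8
import Pool.Agent.H8.HP.Phys3

/-!
# The norm of `H⁻¹`
-/

open MeasureTheory Set Filter Topology
open scoped ENNReal NNReal ContDiff

namespace Pool.Agent.H8.HP

open Pool.Agent.K1H11.NS
open H459R3.NS (ee fr cube S SP Per D Rap IsSol)
open Pool.Agent.H356R3.NS (fc)

/-- square of the `H⁻¹` norm (mean-free part) -/
noncomputable def hm1 (b : K → C3) : ℝ≥0∞ :=
  ∑' k, if k = 0 then 0 else ‖b k‖ₑ ^ 2 / ENNReal.ofReal (∑ i, (k i : ℝ) ^ 2)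

lemma hm1_eq (b : K → C3) : hm1 b = NH b ^ 2 := (NH_sq b).symm

lemma hm1_tendsto {l : Filter ℝ} {f : ℝ → K → C3} (h : Tendsto (fun t => NH (f t)) l (𝓝 0)) :
    Tendsto (fun t => hm1 (f t)) l (𝓝 0) := by
  have := ((ENNReal.continuous_pow 2).tendsto 0).comp h
  rw [zero_pow two_ne_zero] at this
  exact this.congr fun t => (hm1_eq _).symm

lemma NH_tendsto {l : Filter ℝ} {f : ℝ → K → C3} (h : Tendsto (fun t => hm1 (f t)) l (𝓝 0)) :
    Tendsto (fun t => NH (f t)) l (𝓝 0) := by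
  have h1 := ((ENNReal.continuous_rpow_const (y := (1 / 2 : ℝ))).tendsto 0).comp h
  rw [ENNReal.zero_rpow_of_pos (by norm_num)] at h1
  refine h1.congr fun t => ?_
  show hm1 (f t) ^ (1 / 2 : ℝ) = _
  rw [hm1_eq, ← ENNReal.rpow_natCast, ← ENNReal.rpow_mul]
  norm_num

end Pool.Agent.H8.HP
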