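import Pool.Graph.R_pool_sql_team_seeded_efc1946e.K1H11.NS8.Unify

open MeasureTheory Set Filter Topology
open scoped ENNReal NNReal ContDiff

namespace Pool.Agent.H8.HP

open Pool.Agent.K1H11.NS

/-- Uniform local solutions of a bounded family of data, close to their data for short times. -/
theorem local_family {c : ℝ} (hc : 0 < c) {Θ : Type} {V : Θ → K → C3} {v : K → ℝ} (rv : RM v)
    (hVs : ∀ θ, Sym (V θ)) (hV0 : ∀ θ, V θ 0 = 0) (hV : ∀ θ k, ‖V θ k‖ ≤ v k) {η : ℝ} (hη : 0 < η) :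
    ∃ T : ℝ, 0 < T ∧ ∃ F W : Θ → Fam, ∀ θ, CF (F θ) ∧ (∀ k t, t ≤ T → F θ k t = 0) ∧
      (∃ a : Wt, Sup a ∧ SolF c (F θ) a (V θ) (W θ)) ∧
      ∀ t, 0 ≤ t → t ≤ T → An (W θ - fun k _ => V θ k) t ≤ η := by
  obtain ⟨T, b, hT, rb, F, W, h⟩ := local_solB hc rv hVs hV0 hV
  have rs : RM fun k => c * (Pool.Agent.K1H11.NS.sq k * v k) + C0 * nk k * conv b b k +
      2 * Real.pi * (∑ i, |(0 : E3) i|) * (nk k * v k) :=
    ((rv.sq.mul hc.le).add (rb.q rb)).add (rv.nk.mul (by simp))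
  set S := ∑' k, (c * (Pool.Agent.K1H11.NS.sq k * v k) + C0 * nk k * conv b b k +
      2 * Real.pi * (∑ i, |(0 : E3) i|) * (nk k * v k)) with hS
  have hS0 : 0 ≤ S := tsum_nonneg rs.nn
  have hT1 : 0 < min T (η / (S + 1)) := lt_min hT (by positivity)
  refine ⟨min T (η / (S + 1)), hT1, F, W, fun θ => ?_⟩
  obtain ⟨h1, h2, h3⟩ := h θ
  refine ⟨h1, fun k t ht => h2 k t (ht.trans (min_le_left _ _)), h3.toSolF rb, fun t h0 ht => ?_⟩
  have h4 := h3.near hc h2 rb rv (hV θ) 0 h0 (ht.trans (min_le_left _ _))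
  have e : PH 0 (V θ) = fun k _ => V θ k := by
    funext k t
    simp [PH, ex]
  rw [e] at h4
  refine h4.trans ?_
  rw [← hS]
  calc t * S ≤ η / (S + 1) * (S + 1) := by
        apply mul_le_mul (ht.trans (min_le_right _ _)) (by linarith) hS0 (by positivity)
    _ = η := by field_simp

end Pool.Agent.H8.HP
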