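import Pool.Agent.H8.HP.Along

/-!
# Paths given by limits
-/

open MeasureTheory Set Filter Topology
open scoped ENNReal NNReal ContDiff

namespace Pool.Agent.H8.HP

open Pool.Agent.K1H11.NS
open H459R3.NS (ee fr cube S SP Per D Rap IsSol)
open Pool.Agent.H356R3.NS (fc AdmissiblePeriodic)

lemma pathN_of {N : (K → C3) → ℝ≥0∞} {R : ℝ} {v : ℝ → K → C3} (hfin : ∀ t ∈ Icc 0 R, N (v t) ≠ ⊤)
    (h : ∀ t ∈ Icc 0 R, Tendsto (fun s => N (v s - v t)) (𝓝[Icc 0 R] t) (𝓝 0)) : PathN N R v := by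
  refine ⟨hfin, fun t ht ρ hρ => ?_⟩
  have h1 : ∀ᶠ s in 𝓝[Icc 0 R] t, N (v s - v t) < ENNReal.ofReal ρ :=
    (h t ht).eventually (gt_mem_nhds (by rw [ENNReal.ofReal_pos]; exact hρ))
  rw [Filter.Eventually, Metric.mem_nhdsWithin_iff] at h1
  obtain ⟨δ, hδ, hδ'⟩ := h1
  refine ⟨δ, hδ, fun s hs hst => ?_⟩
  exact le_of_lt (hδ' ⟨by rw [Metric.mem_ball, Real.dist_eq]; exact hst, hs⟩)

lemma pathN_NH {R : ℝ} {v : ℝ → K → C3} (hfin : ∀ t ∈ Icc 0 R, hm1 (v t) ≠ ⊤)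
    (h : ∀ t ∈ Icc 0 R, Tendsto (fun s => hm1 fun k => v s k - v t k) (𝓝[Icc 0 R] t) (𝓝 0)) : PathN NH R v := by
  refine pathN_of (fun t ht h' => hfin t ht ?_) fun t ht => NH_tendsto (f := fun s => v s - v t) (h t ht)
  rw [hm1_eq, h']
  simp

end Pool.Agent.H8.HP
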