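import Pool.Agent.H8.NS.Glue

/-!
# The physical side of flows with finitely many singular times
-/

open MeasureTheory Set Filter Topology
open scoped ENNReal NNReal ContDiff

namespace Pool.Agent.H8.HP

open Pool.Agent.K1H11.NS
open H459R3.NS (ee fr cube S SP Per D Rap IsSol)
open Pool.Agent.H356R3.NS (fc)

/-- Fourier coefficients of the physical field. -/
theorem flow_fc {c : ℝ} {S : Finset ℝ} {L : ℝ} {a : K → C3} {V : Fam} (h : Flow c S L a V) {t : ℝ} (h0 : 0 < t)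
    (hL : t ≤ L) : fc (Uf 0 V t) = at' V t := by
  funext k
  have hsd := h.sd t h0 hL
  rw [Uf_fc hsd]
  by_cases hk : k = 0
  · subst hk
    rw [if_pos rfl, hsd.z]
    funext i
    simp
  · rw [if_neg hk]
    have e : ex k (-(t • (0 : E3))) = 1 := by simp [ex]
    rw [e, one_smul]
    rfl

/-- families are continuous in `ℓ¹` -/
lemma cont_l1 {z : Fam} (hz : CF z) (hd : Dom z) (s0 : ℝ) :
    Tendsto (fun s => NH (at' z s - at' z s0)) (𝓝 s0) (𝓝 0) := by
  obtain ⟨b, hb, hbd⟩ := hd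
  have hs : ∀ s k, ‖z k s - z k s0‖ ≤ b k + b k := fun s k =>
    (norm_sub_le _ _).trans (add_le_add (hbd k s) (hbd k s0))
  have hsum : Summable fun k => b k + b k := hb.add hb
  have hc : Continuous fun s => ∑' k, ‖z k s - z k s0‖ := by
    refine continuous_tsum (fun k => ((hz k).sub continuous_const).norm) hsum fun k s => ?_
    rw [norm_norm]
    exact hs s k
  have h0 : Tendsto (fun s => ENNReal.ofReal (2 * ∑' k, ‖z k s - z k s0‖)) (𝓝 s0) (𝓝 0) := by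
    have h1 : Tendsto (fun s => 2 * ∑' k, ‖z k s - z k s0‖) (𝓝 s0) (𝓝 (2 * ∑' k, ‖z k s0 - z k s0‖)) :=
      (hc.const_mul 2 |>.continuousAt)
    have h2 := ENNReal.tendsto_ofReal h1
    simpa using h2
  refine tendsto_of_tendsto_of_tendsto_of_le_of_le tendsto_const_nhds h0 (fun _ => zero_le) fun s => ?_
  exact NH_le_An (x := at' z s - at' z s0) (hsum.of_nonneg_of_le (fun _ => norm_nonneg _) (hs s)) le_rfl

/-- a left neighbourhood without singular times -/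
lemma left_free (S : Finset ℝ) {t₀ : ℝ} (h0 : 0 < t₀) : ∃ r, 0 < r ∧ r < t₀ ∧ ∀ s ∈ S, r ≤ s → t₀ ≤ s := by
  classical
  have h1 : ∀ᶠ r in 𝓝[<] t₀, 0 < r ∧ r < t₀ ∧ ∀ s ∈ S, r ≤ s → t₀ ≤ s := by
    have h2 : ∀ s ∈ S, ∀ᶠ r in 𝓝[<] t₀, r ≤ s → t₀ ≤ s := by
      intro s _
      rcases le_or_gt t₀ s with h3 | h3
      · exact Eventually.of_forall fun _ _ => h3
      · have : Ioo s t₀ ∈ 𝓝[<] t₀ := Ioo_mem_nhdsLT h3
        filter_upwards [this] with r hr h4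
        exact absurd h4 (not_le.2 hr.1)
    have h3 : Ioo 0 t₀ ∈ 𝓝[<] t₀ := Ioo_mem_nhdsLT h0
    filter_upwards [h3, (Finset.eventually_all S).2 h2] with r hr h4
    exact ⟨hr.1, hr.2, h4⟩
  exact h1.exists

/-- a right neighbourhood without singular times other than the left end point -/
lemma right_free (S : Finset ℝ) {t₀ L : ℝ} (h0 : t₀ < L) (hS : t₀ ∉ S) :
    ∃ r, t₀ < r ∧ r ≤ L ∧ ∀ s ∈ S, t₀ ≤ s → r ≤ s := by
  classical
  have h1 : ∀ᶠ r in 𝓝[>] t₀, t₀ < r ∧ r ≤ L ∧ ∀ s ∈ S, t₀ ≤ s → r ≤ s := by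
    have h2 : ∀ s ∈ S, ∀ᶠ r in 𝓝[>] t₀, t₀ ≤ s → r ≤ s := by
      intro s hs
      rcases lt_or_ge s t₀ with h3 | h3
      · exact Eventually.of_forall fun _ h4 => absurd h4 (not_le.2 h3)
      · have h5 : t₀ < s := lt_of_le_of_ne h3 fun h => hS (h ▸ hs)
        have : Ioo t₀ s ∈ 𝓝[>] t₀ := Ioo_mem_nhdsGT h5
        filter_upwards [this] with r hr _
        exact hr.2.le
    have h3 : Ioo t₀ L ∈ 𝓝[>] t₀ := Ioo_mem_nhdsGT h0
    filter_upwards [h3, (Finset.eventually_all S).2 h2] with r hr h4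
    exact ⟨hr.1, hr.2.le, h4⟩
  exact h1.exists

/-- `H⁻¹` continuity. -/
theorem flow_contNH {c : ℝ} (hc : 0 < c) {S : Finset ℝ} {L : ℝ} {a : K → C3} {V : Fam} (h : Flow c S L a V)
    {t₀ : ℝ} (h0 : 0 < t₀) (hL : t₀ < L) :
    Tendsto (fun t => NH (at' V t - at' V t₀)) (𝓝 t₀) (𝓝 0) := by
  -- the left side
  have hleft : Tendsto (fun t => NH (at' V t - at' V t₀)) (𝓝[≤] t₀) (𝓝 0) := by
    obtain ⟨r, hr0, hr1, hr2⟩ := left_free S h0
    obtain ⟨T', F', a', z, q1, q2, q3, q4, q5, q6⟩ := h.sol r t₀ hr0 hr1.le hL.le hr2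
    have h1 := cont_l1 q5.cf (q5.dom' q4) (t₀ - r)
    have h2 : Tendsto (fun t => t - r) (𝓝[≤] t₀) (𝓝 (t₀ - r)) :=
      ((continuous_id.sub continuous_const).tendsto t₀).mono_left nhdsWithin_le_nhds
    have h3 := h1.comp h2
    refine h3.congr' ?_
    have hmem : Ioc r t₀ ∈ 𝓝[≤] t₀ := Ioc_mem_nhdsLE hr1
    filter_upwards [hmem] with t ht
    have e1 : at' z (t - r) = at' V t := by
      funext k
      show z k (t - r) = V k t
      rw [q6 k (t - r) (by linarith [ht.1]) (by linarith [ht.2])]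
      congr 1; ring
    have e2 : at' z (t₀ - r) = at' V t₀ := by
      funext k
      show z k (t₀ - r) = V k t₀
      rw [q6 k (t₀ - r) (by linarith) (by linarith)]
      congr 1; ring
    show NH (at' z (t - r) - at' z (t₀ - r)) = _
    rw [e1, e2]
  have hright : Tendsto (fun t => NH (at' V t - at' V t₀)) (𝓝[>] t₀) (𝓝 0) := by
    by_cases hS : t₀ ∈ S
    · have h1 := h.nhr t₀ hS h0
      rw [ENNReal.tendsto_nhds_zero]
      intro ε hε
      obtain ⟨ρ, hρ, hρε⟩ : ∃ ρ : ℝ, 0 < ρ ∧ ENNReal.ofReal ρ ≤ ε := by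
        rcases eq_or_ne ε ⊤ with h | h
        · exact ⟨1, one_pos, by rw [h]; exact le_top⟩
        · exact ⟨ε.toReal, ENNReal.toReal_pos hε.ne' h, by rw [ENNReal.ofReal_toReal h]⟩
      obtain ⟨δ, hδ, h2⟩ := h1 ρ hρ
      have hmem : Ioc t₀ (t₀ + δ) ∈ 𝓝[>] t₀ := Ioc_mem_nhdsGT (by linarith)
      filter_upwards [hmem] with t ht
      have h3 := h2 (t - t₀) (by linarith [ht.1]) (by linarith [ht.2])
      rw [show t₀ + (t - t₀) = t by ring] at h3
      exact h3.trans hρε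
    · obtain ⟨r, hr1, hr2, hr3⟩ := right_free S hL hS
      obtain ⟨T', F', a', z, q1, q2, q3, q4, q5, q6⟩ := h.sol t₀ r h0 hr1.le hr2 hr3
      have h1 := cont_l1 q5.cf (q5.dom' q4) 0
      have h2 : Tendsto (fun t => t - t₀) (𝓝[>] t₀) (𝓝 0) := by
        have h4 : Tendsto (fun t : ℝ => t - t₀) (𝓝 t₀) (𝓝 (t₀ - t₀)) :=
          (continuous_id.sub continuous_const).tendsto t₀
        rw [sub_self] at h4
        exact h4.mono_left nhdsWithin_le_nhds
      have h3 := h1.comp h2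
      refine h3.congr' ?_
      have hmem : Ioc t₀ r ∈ 𝓝[>] t₀ := Ioc_mem_nhdsGT hr1
      filter_upwards [hmem] with t ht
      have e1 : at' z (t - t₀) = at' V t := by
        funext k
        show z k (t - t₀) = V k t
        rw [q6 k (t - t₀) (by linarith [ht.1]) (by linarith [ht.2])]
        congr 1; ring
      have e2 : at' z 0 = at' V t₀ := by
        funext k
        show z k 0 = V k t₀
        rw [q6 k 0 le_rfl (by linarith)]
        congr 1; ring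
      show NH (at' z (t - t₀) - at' z 0) = _
      rw [e1, e2]
  rw [← nhdsLE_sup_nhdsGT]
  exact hleft.sup hright

/-- The physical field is a restriction of a classical solution on `[t₀, t₁]` if there is no singular
time in `[t₀, t₁)`. -/
theorem flow_isSol {ν : ℝ} (hν : 0 < ν) {S : Finset ℝ} {L : ℝ} {a : K → C3} {V : Fam}
    (h : Flow (4 * Real.pi ^ 2 * ν) S L a V) {t₀ t₁ : ℝ} (h0 : 0 < t₀) (h01 : t₀ ≤ t₁) (hL : t₁ ≤ L)
    (hS : ∀ s ∈ S, t₀ ≤ s → t₁ ≤ s) :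
    ∃ (T' : ℝ) (u' : ℝ → E3 → E3) (p' : ℝ → E3 → ℝ), t₁ - t₀ < T' ∧ IsSol ν T' u' p' ∧
      ∀ r, 0 ≤ r → t₀ + r ≤ t₁ → u' r = Uf 0 V (t₀ + r) := by
  obtain ⟨T', F', a', z, q1, q2, q3, q4, q5, q6⟩ := h.sol t₀ t₁ h0 h01 hL hS
  obtain ⟨u, u1, -, u2⟩ := sol_local q2 q3 q4 (h.sd t₀ h0 (h01.trans hL)).dt q5 0
    (T1 := (t₁ - t₀ + T') / 2) (by linarith) (by linarith)
  refine ⟨(t₁ - t₀ + T') / 2, _, _, by linarith, u2, fun r hr0 hr1 => ?_⟩
  funext x i
  rw [Uf_zero_mean]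
  show (0 : ℝ) + (GS 0 (cf' u i) r x).re = _
  rw [zero_add]
  unfold GS SF
  congr 1
  refine tsum_congr fun k => ?_
  show u k r i * ex k (x - r • (0 : E3)) = V k (t₀ + r) i * ex k x
  rw [u1 k r hr0 (by linarith), q6 k r hr0 hr1, smul_zero, sub_zero]

/-- The growth at a singular time. -/
theorem flow_growth {c : ℝ} {S : Finset ℝ} {L : ℝ} {a : K → C3} {V : Fam} (h : Flow c S L a V) {s : ℝ} (hs : s ∈ S) :
    ∃ L' : ℝ, 0 < L' ∧ ∀ q : ℝ, 2 < q → ∫⁻ t in Ioc s (s + L'),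
      (ENNReal.ofReal (Real.sqrt (t - s)) * ⨆ x, ‖Uf 0 V t x‖ₑ) ^ q / ENNReal.ofReal (t - s) ≠ ⊤ := by
  obtain ⟨L', G, g1, g2, g3, g4⟩ := h.growG s hs
  obtain ⟨hs0, hsL⟩ := h.hS s hs
  set U : Fam := fun k t => if t ≤ L' then V k (s + t) else 0 with hU
  have hU1 : ∀ k t, t ≤ L' → U k t = V k (s + t) := fun k t ht => if_pos ht
  have hU2 : ∀ k t, L' < t → U k t = 0 := fun k t ht => if_neg (not_le.2 ht)
  have hSD : ∀ t, 0 < t → SD (at' U t) := by
    intro t ht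
    rcases le_or_gt t L' with h1 | h1
    · have e : at' U t = at' V (s + t) := funext fun k => hU1 k t h1
      rw [e]
      exact h.sd _ (by linarith) (by linarith)
    · have e : at' U t = 0 := funext fun k => hU2 k t h1
      rw [e]
      have h2 := h.sd L (by linarith) le_rfl
      have := h2.sub h2
      rwa [sub_self] at this
  have hG : ∀ (j : ℕ) (t : ℝ), (1 / 4) ^ (j + 1) < t → t ≤ (1 / 4) ^ j →
      ENNReal.ofReal (Real.sqrt t * ∑' k, ‖U k t‖) ≤ G j := by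
    intro j t h1 h2
    rcases le_or_gt t L' with h3 | h3
    · simp_rw [fun k => hU1 k t h3]
      exact g3 j t h1 h2 h3
    · simp_rw [fun k => hU2 k t h3]
      simp
  refine ⟨min L' 1, lt_min g1 one_pos, fun q hq => ?_⟩
  have key := growth_int (m := 0) hSD hG (s := q) (by linarith) (g4 q hq)
  have e1 : ∫⁻ t in Ioc s (s + min L' 1),
      (ENNReal.ofReal (Real.sqrt (t - s)) * ⨆ x, ‖Uf 0 V t x‖ₑ) ^ q / ENNReal.ofReal (t - s) =
      ∫⁻ t, (Ioc (0 : ℝ) (min L' 1)).indicator (fun t =>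
        (ENNReal.ofReal (Real.sqrt t) * ⨆ x, ‖Uf 0 U t x‖ₑ) ^ q / ENNReal.ofReal t) (t - s) := by
    rw [← lintegral_indicator measurableSet_Ioc]
    refine lintegral_congr fun t => ?_
    by_cases ht : t ∈ Ioc s (s + min L' 1)
    · have h1 : t - s ∈ Ioc (0 : ℝ) (min L' 1) := ⟨by linarith [ht.1], by linarith [ht.2]⟩
      rw [indicator_of_mem ht, indicator_of_mem h1]
      have e2 : Uf 0 U (t - s) = Uf 0 V t := by
        funext x i
        rw [Uf_zero_mean, Uf_zero_mean]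
        congr 1
        refine tsum_congr fun k => ?_
        rw [hU1 k _ (h1.2.trans (min_le_left _ _)), show s + (t - s) = t by ring]
      rw [e2]
    · have h1 : t - s ∉ Ioc (0 : ℝ) (min L' 1) := fun h5 =>
        ht ⟨by linarith [h5.1], by linarith [h5.2]⟩
      rw [indicator_of_notMem ht, indicator_of_notMem h1]
  rw [e1, lintegral_sub_right_eq_self (fun t => (Ioc (0 : ℝ) (min L' 1)).indicator (fun t =>
    (ENNReal.ofReal (Real.sqrt t) * ⨆ x, ‖Uf 0 U t x‖ₑ) ^ q / ENNReal.ofReal t) t) s,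
    lintegral_indicator measurableSet_Ioc]
  exact ne_top_of_le_ne_top key (lintegral_mono_set (Ioc_subset_Ioc le_rfl (min_le_right _ _)))

/-- Pointwise growth. -/
theorem flow_growth0 {c : ℝ} {S : Finset ℝ} {L : ℝ} {a : K → C3} {V : Fam} (h : Flow c S L a V) {s : ℝ} (hs : s ∈ S)
    {ρ : ℝ} (hρ : 0 < ρ) : ∃ δ : ℝ, 0 < δ ∧ ∀ t, s < t → t ≤ s + δ → ∀ x i, Real.sqrt (t - s) * |Uf 0 V t x i| ≤ ρ := by
  obtain ⟨hs0, hsL⟩ := h.hS s hs
  obtain ⟨δ, hδ, h1⟩ := h.grow s hs ρ hρ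
  refine ⟨min δ (L - s), lt_min hδ (by linarith), fun t ht1 ht2 x i => ?_⟩
  have h2 : t - s ≤ min δ (L - s) := by linarith
  have h3 := h1 (t - s) (by linarith) (h2.trans (min_le_left _ _))
  have h4 := h2.trans (min_le_right _ _)
  have h5 := Uf_abs_le (m := 0) (h.sd t (by linarith) (by linarith)) x i
  rw [show s + (t - s) = t by ring] at h3
  refine (mul_le_mul_of_nonneg_left h5 (Real.sqrt_nonneg _)).trans (le_trans (le_of_eq ?_) h3)
  simp

/-- Square integrability. -/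
theorem flow_l2 {c : ℝ} {S : Finset ℝ} {L : ℝ} {a : K → C3} {V : Fam} (h : Flow c S L a V) :
    ∫⁻ t in Ioc 0 L, ∫⁻ x in cube, ‖Uf 0 V t x‖ₑ ^ 2 ≠ ⊤ := by
  refine ne_top_of_le_ne_top (b := ∫⁻ t in Ioc 0 L, 3 * ∑' k, ‖V k t‖ₑ ^ 2) ?_ ?_
  · rw [lintegral_const_mul' _ _ (by norm_num)]
    exact ENNReal.mul_ne_top (by norm_num) h.l2
  · refine setLIntegral_mono' measurableSet_Ioc fun t ht => ?_
    refine (Uf_l2 (m := 0) (h.sd t ht.1 ht.2)).trans (le_of_eq ?_)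
    simp

end Pool.Agent.H8.HP
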