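import Pool.Agent.H8.HP.Phys

/-!
# Continuity of the flow in general norms
-/

open MeasureTheory Set Filter Topology
open scoped ENNReal NNReal ContDiff

namespace Pool.Agent.H8.HP

open Pool.Agent.K1H11.NS
open H459R3.NS (ee fr cube S SP Per D Rap IsSol)
open Pool.Agent.H356R3.NS (fc critNorm)

lemma cont_l1N {N : (K → C3) → ℝ≥0∞} (hN : GoodN N) {z : Fam} (hz : CF z) (hd : Dom z) (s0 : ℝ) :
    Tendsto (fun s => N (at' z s - at' z s0)) (𝓝 s0) (𝓝 0) := by
  obtain ⟨b, hb, hbd⟩ := hd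
  have hs : ∀ s k, ‖z k s - z k s0‖ ≤ b k + b k := fun s k =>
    (norm_sub_le _ _).trans (add_le_add (hbd k s) (hbd k s0))
  have hsum : Summable fun k => b k + b k := hb.add hb
  have hc : Continuous fun s => ∑' k, ‖z k s - z k s0‖ := by
    refine continuous_tsum (fun k => ((hz k).sub continuous_const).norm) hsum fun k s => ?_
    rw [norm_norm]
    exact hs s k
  have h0 : Tendsto (fun s => ENNReal.ofReal (2 * ∑' k, ‖z k s - z k s0‖)) (𝓝 s0) (𝓝 0) := by
    have h1 : Tendsto (fun s => 2 * ∑' k, ‖z k s - z k s0‖) (𝓝 s0) (𝓝 (2 * ∑' k, ‖z k s0 - z k s0‖)) :=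
      (hc.const_mul 2 |>.continuousAt)
    have h2 := ENNReal.tendsto_ofReal h1
    simpa using h2
  refine tendsto_of_tendsto_of_tendsto_of_le_of_le tendsto_const_nhds h0 (fun _ => zero_le) fun s => ?_
  exact GoodN_le_An hN (x := at' z s - at' z s0) (hsum.of_nonneg_of_le (fun _ => norm_nonneg _) (hs s)) le_rfl

/-- small values and limits -/
lemma tendsto_right_of {f : ℝ → ℝ≥0∞} {t₀ : ℝ} (h : ∀ ρ : ℝ, 0 < ρ → ∃ δ : ℝ, 0 < δ ∧ ∀ t, 0 < t → t ≤ δ →
    f (t₀ + t) ≤ ENNReal.ofReal ρ) : Tendsto f (𝓝[>] t₀) (𝓝 0) := by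
  rw [ENNReal.tendsto_nhds_zero]
  intro ε hε
  obtain ⟨ρ, hρ, hρε⟩ : ∃ ρ : ℝ, 0 < ρ ∧ ENNReal.ofReal ρ ≤ ε := by
    rcases eq_or_ne ε ⊤ with h | h
    · exact ⟨1, one_pos, by rw [h]; exact le_top⟩
    · exact ⟨ε.toReal, ENNReal.toReal_pos hε.ne' h, by rw [ENNReal.ofReal_toReal h]⟩
  obtain ⟨δ, hδ, h2⟩ := h ρ hρ
  have hmem : Ioc t₀ (t₀ + δ) ∈ 𝓝[>] t₀ := Ioc_mem_nhdsGT (by linarith)
  filter_upwards [hmem] with t ht
  have h3 := h2 (t - t₀) (by linarith [ht.1]) (by linarith [ht.2])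
  rw [show t₀ + (t - t₀) = t by ring] at h3
  exact h3.trans hρε

/-- Continuity in general norms. -/
theorem flow_contN {N : (K → C3) → ℝ≥0∞} (hN : GoodN N) {c : ℝ} {S : Finset ℝ} {L : ℝ} {a : K → C3}
    {V : Fam} (h : Flow c S L a V) (hNr : ∀ s ∈ S, 0 < s → ∀ ρ : ℝ, 0 < ρ → ∃ δ : ℝ, 0 < δ ∧ ∀ t, 0 < t → t ≤ δ →
      N (at' V (s + t) - at' V s) ≤ ENNReal.ofReal ρ)
    {t₀ : ℝ} (h0 : 0 < t₀) (hL : t₀ < L) :
    Tendsto (fun t => N (at' V t - at' V t₀)) (𝓝 t₀) (𝓝 0) := by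
  -- the left side
  have hleft : Tendsto (fun t => N (at' V t - at' V t₀)) (𝓝[≤] t₀) (𝓝 0) := by
    obtain ⟨r, hr0, hr1, hr2⟩ := left_free S h0
    obtain ⟨T', F', a', z, q1, q2, q3, q4, q5, q6⟩ := h.sol r t₀ hr0 hr1.le hL.le hr2
    have h1 := cont_l1N hN q5.cf (q5.dom' q4) (t₀ - r)
    have h2 : Tendsto (fun t => t - r) (𝓝[≤] t₀) (𝓝 (t₀ - r)) :=
      ((continuous_id.sub continuous_const).tendsto t₀).mono_left nhdsWithin_le_nhds
    have h3 := h1.comp h2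
    refine h3.congr' ?_
    have hmem : Ioc r t₀ ∈ 𝓝[≤] t₀ := Ioc_mem_nhdsLE hr1
    filter_upwards [hmem] with t ht
    have e1 : at' z (t - r) = at' V t := by
      funext k
      show z k (t - r) = V k t
      rw [q6 k (t - r) (by linarith [ht.1]) (by linarith [ht.2])]
      congr 1; ring
    have e2 : at' z (t₀ - r) = at' V t₀ := by
      funext k
      show z k (t₀ - r) = V k t₀
      rw [q6 k (t₀ - r) (by linarith) (by linarith)]
      congr 1; ring
    show N (at' z (t - r) - at' z (t₀ - r)) = _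
    rw [e1, e2]
  have hright : Tendsto (fun t => N (at' V t - at' V t₀)) (𝓝[>] t₀) (𝓝 0) := by
    by_cases hS : t₀ ∈ S
    · exact tendsto_right_of (hNr t₀ hS h0)
    · obtain ⟨r, hr1, hr2, hr3⟩ := right_free S hL hS
      obtain ⟨T', F', a', z, q1, q2, q3, q4, q5, q6⟩ := h.sol t₀ r h0 hr1.le hr2 hr3
      have h1 := cont_l1N hN q5.cf (q5.dom' q4) 0
      have h2 : Tendsto (fun t => t - t₀) (𝓝[>] t₀) (𝓝 0) := by
        have h4 : Tendsto (fun t : ℝ => t - t₀) (𝓝 t₀) (𝓝 (t₀ - t₀)) :=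
          (continuous_id.sub continuous_const).tendsto t₀
        rw [sub_self] at h4
        exact h4.mono_left nhdsWithin_le_nhds
      have h3 := h1.comp h2
      refine h3.congr' ?_
      have hmem : Ioc t₀ r ∈ 𝓝[>] t₀ := Ioc_mem_nhdsGT hr1
      filter_upwards [hmem] with t ht
      have e1 : at' z (t - t₀) = at' V t := by
        funext k
        show z k (t - t₀) = V k t
        rw [q6 k (t - t₀) (by linarith [ht.1]) (by linarith [ht.2])]
        congr 1; ring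
      have e2 : at' z 0 = at' V t₀ := by
        funext k
        show z k 0 = V k t₀
        rw [q6 k 0 le_rfl (by linarith)]
        congr 1; ring
      show N (at' z (t - t₀) - at' z 0) = _
      rw [e1, e2]
  rw [← nhdsLE_sup_nhdsGT]
  exact hleft.sup hright

end Pool.Agent.H8.HP
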