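import Pool.Agent.H8.HP.Defs

/-!
# The weak formulation across finitely many singular times
-/

open MeasureTheory Set Filter Topology
open scoped ENNReal NNReal ContDiff

namespace Pool.Agent.H8.HP

open Pool.Agent.K1H11.NS
open H459R3.NS (ee fr cube S SP Per D Rap IsSol)
open Pool.Agent.H356R3.NS (fc)
open Pool.Agent.K1H52.L2 (tf_comp tf_sp smooth_dt smooth_pd weakInt_eq weakInt_bound weakInt_late pair_formula
  norm_pair_le unif_bound fr_cont om_summable sk sk_nonneg growth_of_NH)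

section
variable {ν : ℝ} {U : ℝ → E3 → E3} {Z : Set ℝ} {φ : ℝ → E3 → E3}

lemma cont_off
    (hloc : ∀ t, 0 < t → t ∉ Z → ∃ a b : ℝ, 0 < a ∧ a < t ∧ t < b ∧ ∃ p, IsSol ν (b - a) (fun s => U (a + s)) p) :
    ContinuousOn (fun z : ℝ × E3 => U z.1 z.2) ((Ioi 0 \ Z) ×ˢ univ) := by
  intro z hz
  have hz1 : 0 < z.1 := hz.1.1
  obtain ⟨a, b, ha, hat, htb, p, hp⟩ := hloc z.1 hz1 hz.1.2
  have h1 : ContinuousAt (fun y : ℝ × E3 => U (a + y.1) y.2) (z.1 - a, z.2) := by
    refine (hp.smooth_u.continuousOn).continuousAt ?_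
    exact prod_mem_nhds (Ico_mem_nhds (by linarith) (by linarith)) Filter.univ_mem
  have h2 : ContinuousAt (fun y : ℝ × E3 => ((y.1 - a, y.2) : ℝ × E3)) z := by fun_prop
  have h3 : ContinuousAt ((fun y : ℝ × E3 => U (a + y.1) y.2) ∘ (fun y : ℝ × E3 => ((y.1 - a, y.2) : ℝ × E3))) z :=
    ContinuousAt.comp h1 h2
  have e : ((fun y : ℝ × E3 => U (a + y.1) y.2)
      ∘ (fun y : ℝ × E3 => ((y.1 - a, y.2) : ℝ × E3))) = fun z : ℝ × E3 => U z.1 z.2 := by
    funext y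
    simp only [Function.comp_apply, add_sub_cancel]
  rw [e] at h3
  exact h3.continuousWithinAt

lemma deriv_off (hφ : TestField φ) {t : ℝ}
    (hloc : ∃ a b : ℝ, 0 < a ∧ a < t ∧ t < b ∧ ∃ p, IsSol ν (b - a) (fun s => U (a + s)) p) :
    HasDerivAt (fun t => ∫ x in cube, ∑ i, U t x i * φ t x i) (∫ x in cube, weakInt ν U φ t x) t := by
  obtain ⟨a, b, ha, hat, htb, p, hp⟩ := hloc
  have h1 := G_deriv_sol hp (shift_test hφ a) (t := t - a) ⟨by linarith, by linarith⟩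
  have h2 := h1.comp_sub_const t a
  have e2 : ∀ x, weakInt ν (fun s => U (a + s)) (fun s => φ (a + s)) (t - a) x = weakInt ν U φ t x := by
    intro x
    have e3 : ∀ i, deriv (fun r => φ (a + r) x i) (t - a) = deriv (fun r => φ r x i) t := fun i => by
      have := deriv_comp_const_add (fun r => φ r x i) a (t - a)
      rw [add_sub_cancel] at this
      exact this
    unfold weakInt
    simp_rw [e3, add_sub_cancel]
  simp_rw [e2] at h2
  refine h2.congr_of_eventuallyEq (Filter.Eventually.of_forall fun s => ?_)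
  simp only [add_sub_cancel]

lemma sq_int_off (hZ : MeasurableSet Z) (hU : ContinuousOn (fun z : ℝ × E3 => U z.1 z.2) ((Ioi 0 \ Z) ×ˢ univ))
    (h2 : ∀ T : ℝ, ∫⁻ t in Ioc 0 T, ∫⁻ x in cube, ‖U t x‖ₑ ^ 2 ≠ ⊤) (T : ℝ) :
    IntegrableOn (fun z : ℝ × E3 => ∑ i, U z.1 z.2 i ^ 2) ((Ioc 0 T \ Z) ×ˢ cube) := by
  have hmI : MeasurableSet (Ioc (0 : ℝ) T \ Z) := measurableSet_Ioc.diff hZ
  have hm1 : MeasurableSet ((Ioc (0 : ℝ) T \ Z) ×ˢ (cube : Set E3)) := hmI.prod measurableSet_Icc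
  have hsub : (Ioc (0 : ℝ) T \ Z) ×ˢ (cube : Set E3) ⊆ (Ioi 0 \ Z) ×ˢ univ :=
    prod_mono (sdiff_subset_sdiff_left Ioc_subset_Ioi_self) (subset_univ _)
  have hUm : AEStronglyMeasurable (fun z : ℝ × E3 => U z.1 z.2) (volume.restrict ((Ioc (0 : ℝ) T \ Z) ×ˢ cube)) :=
    (hU.mono hsub).aestronglyMeasurable hm1
  have hc : ContinuousOn (fun z : ℝ × E3 => ∑ i, U z.1 z.2 i ^ 2) ((Ioi 0 \ Z) ×ˢ univ) :=
    continuousOn_finsetSum _ fun i _ => ((continuousOn_pi.1 hU) i).pow 2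
  refine ⟨(hc.mono hsub).aestronglyMeasurable hm1, ?_⟩
  have e1 : (volume : Measure (ℝ × E3)).restrict ((Ioc (0 : ℝ) T \ Z) ×ˢ cube)
      = (volume.restrict (Ioc (0 : ℝ) T \ Z)).prod (volume.restrict (cube : Set E3)) := by
    rw [Measure.prod_restrict]; rfl
  have h3 : ∫⁻ z in (Ioc (0 : ℝ) T \ Z) ×ˢ (cube : Set E3), ‖U z.1 z.2‖ₑ ^ 2
      = ∫⁻ t in Ioc 0 T \ Z, ∫⁻ x in cube, ‖U t x‖ₑ ^ 2 := by
    rw [e1] at hUm ⊢
    exact lintegral_prod _ (hUm.enorm.pow_const 2)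
  unfold HasFiniteIntegral
  have h4 : ∫⁻ z in (Ioc (0 : ℝ) T \ Z) ×ˢ (cube : Set E3), ‖∑ i, U z.1 z.2 i ^ 2‖ₑ
      ≤ ∫⁻ z in (Ioc (0 : ℝ) T \ Z) ×ˢ (cube : Set E3), 3 * ‖U z.1 z.2‖ₑ ^ 2 := by
    refine lintegral_mono fun z => ?_
    refine (enorm_sum_le _ _).trans ((Finset.sum_le_sum (g := fun _ => ‖U z.1 z.2‖ₑ ^ 2) fun i _ => ?_).trans ?_)
    · rw [enorm_pow]
      exact pow_le_pow_left' (ENNReal.coe_le_coe.2 (nnnorm_le_pi_nnnorm (U z.1 z.2) i)) 2
    · rw [Finset.sum_const, Finset.card_univ, Fintype.card_fin, nsmul_eq_mul]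
      push_cast
      exact le_rfl
  refine h4.trans_lt ?_
  rw [lintegral_const_mul' _ _ (by norm_num), h3]
  refine ENNReal.mul_lt_top (by norm_num) (lt_top_iff_ne_top.2 (ne_top_of_le_ne_top (h2 T) ?_))
  exact lintegral_mono_set sdiff_subset

lemma weakInt_cont_off (hφ : TestField φ) (hU : ContinuousOn (fun z : ℝ × E3 => U z.1 z.2) ((Ioi 0 \ Z) ×ˢ univ)) :
    ContinuousOn (fun z : ℝ × E3 => weakInt ν U φ z.1 z.2) ((Ioi 0 \ Z) ×ˢ univ) := by
  have hUi : ∀ i, ContinuousOn (fun z : ℝ × E3 => U z.1 z.2 i) ((Ioi 0 \ Z) ×ˢ univ) := fun i =>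
    (continuousOn_pi.1 hU) i
  have h1 : ∀ i, Continuous (fun z : ℝ × E3 => deriv (fun s => φ s z.2 i) z.1) := fun i =>
    (smooth_dt (f := fun t x => φ t x i) (tf_comp hφ i)).continuous
  have h2 : ∀ i j, Continuous (fun z : ℝ × E3 => Pool.Agent.H356R3.NS.pd j (fun y => φ z.1 y i) z.2) := fun i j =>
    (smooth_pd (f := fun t x => φ t x i) (tf_comp hφ i) j).continuous
  have h3 : ∀ i j, Continuous (fun z : ℝ × E3 => Pool.Agent.H356R3.NS.pd j (Pool.Agent.H356R3.NS.pd j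
      fun y => φ z.1 y i) z.2) := fun i j =>
    (smooth_pd (f := fun t x => H459R3.NS.pd j (fun y => φ t y i) x)
      (smooth_pd (f := fun t x => φ t x i) (tf_comp hφ i) j) j).continuous
  simp_rw [weakInt_eq]
  refine continuousOn_finsetSum _ fun i _ => ?_
  refine ((hUi i).mul ((h1 i).continuousOn.add (continuousOn_const.mul
    (continuousOn_finsetSum _ fun j _ => (h3 i j).continuousOn)))).add
    (continuousOn_finsetSum _ fun j _ => ?_)
  exact ((hUi i).mul (hUi j)).mul (h2 i j).continuousOn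

lemma weakInt_int_off (hφ : TestField φ) (hZ : Z.Finite)
    (hU : ContinuousOn (fun z : ℝ × E3 => U z.1 z.2) ((Ioi 0 \ Z) ×ˢ univ))
    (h2 : ∀ T : ℝ, ∫⁻ t in Ioc 0 T, ∫⁻ x in cube, ‖U t x‖ₑ ^ 2 ≠ ⊤) (ν : ℝ) :
    IntegrableOn (fun z : ℝ × E3 => weakInt ν U φ z.1 z.2) (Ioi 0 ×ˢ cube) := by
  have hsq := sq_int_off hZ.measurableSet hU h2
  obtain ⟨T, hT⟩ := hφ.support
  obtain ⟨C, hC0, hC⟩ := weakInt_bound hφ U ν (max T 1)
  have hT1 : (0 : ℝ) ≤ max T 1 := zero_le_one.trans (le_max_right _ _)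
  have hm1 : MeasurableSet ((Ioc (0 : ℝ) (max T 1) \ Z) ×ˢ (cube : Set E3)) :=
    (measurableSet_Ioc.diff hZ.measurableSet).prod measurableSet_Icc
  have hm2 : MeasurableSet (Ioi (max T 1) ×ˢ (cube : Set E3)) := measurableSet_Ioi.prod measurableSet_Icc
  have e : Ioi (0 : ℝ) ×ˢ (cube : Set E3) = (Ioc 0 (max T 1) ×ˢ cube) ∪ (Ioi (max T 1) ×ˢ cube) := by
    rw [← union_prod, Ioc_union_Ioi_eq_Ioi hT1]
  have hnull : (volume : Measure ℝ) Z = 0 := hZ.measure_zero _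
  have hae : ((Ioc (0 : ℝ) (max T 1) \ Z) ×ˢ (cube : Set E3) : Set (ℝ × E3)) =ᵐ[volume]
      Ioc (0 : ℝ) (max T 1) ×ˢ cube := by
    rw [Measure.volume_eq_prod]
    exact Measure.set_prod_ae_eq (sdiff_null_ae_eq_self hnull) (Filter.EventuallyEq.refl _ _)
  rw [e]
  refine IntegrableOn.union ?_ ?_
  · refine IntegrableOn.congr_set_ae ?_ hae.symm
    have hfin : volume ((Ioc (0 : ℝ) (max T 1) \ Z) ×ˢ (cube : Set E3)) ≠ ⊤ := by
      rw [Measure.volume_eq_prod, Measure.prod_prod]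
      exact ENNReal.mul_ne_top ((measure_mono sdiff_subset).trans_lt measure_Ioc_lt_top).ne
        (isCompact_Icc.measure_lt_top).ne
    have hg : IntegrableOn (fun z : ℝ × E3 => C * (1 + ∑ i, U z.1 z.2 i ^ 2)) ((Ioc 0 (max T 1) \ Z) ×ˢ cube) :=
      ((integrableOn_const hfin).add (hsq _)).const_mul C
    refine Integrable.mono' hg ?_ ?_
    · exact ((weakInt_cont_off hφ hU).mono (prod_mono (sdiff_subset_sdiff_left Ioc_subset_Ioi_self)
        (subset_univ _))).aestronglyMeasurable hm1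
    · refine (ae_restrict_iff' hm1).2 (Filter.Eventually.of_forall fun z hz => ?_)
      rw [Real.norm_eq_abs]
      exact hC z.1 ⟨hz.1.1.1.le, hz.1.1.2⟩ z.2 hz.2
  · have h0 : IntegrableOn (fun _ : ℝ × E3 => (0 : ℝ)) (Ioi (max T 1) ×ˢ cube) := integrableOn_zero
    exact h0.congr_fun (fun z hz => (weakInt_late hT ((le_max_left T 1).trans_lt hz.1) z.2).symm) hm2

lemma fc_bound' (hφ : TestField φ) (L : ℕ) (T : ℝ) : ∃ C : ℝ, 0 ≤ C ∧ ∀ t ∈ Icc (0 : ℝ) T, ∀ k i,
    ‖fc (φ t) k i‖ ≤ C * K1H52.L2.om L k := by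
  choose C hC0 hC using fun i => unif_bound L T (f := fun t x => φ t x i) (tf_comp hφ i)
    (fun t => (tf_sp hφ t i).per)
  refine ⟨∑ i, C i, Finset.sum_nonneg fun i _ => hC0 i, fun t ht k i => ?_⟩
  have hs := sk_nonneg k
  have h1 : 0 < (1 + sk k) ^ L := by positivity
  rw [fc_eq_fr]
  unfold K1H52.L2.om
  rw [← div_eq_mul_inv, le_div_iff₀ h1, mul_comm]
  exact (hC i t ht k).trans (Finset.single_le_sum (f := C) (fun j _ => hC0 j) (Finset.mem_univ i))

/-- Convergence of the pairing along a filter. -/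
theorem pair_tendsto' (hφ : TestField φ) {a : K → C3} {C : ℝ} {M : ℕ} {t₀ : ℝ} (h0 : 0 ≤ t₀) {l : Filter ℝ}
    (hl : l ≤ 𝓝 t₀) (hl0 : ∀ᶠ t in l, 0 < t)
    (hsp : ∀ t, 0 < t → ∀ i, SP fun x => U t x i) (ha : ∀ k, ‖a k‖ ≤ C * (1 + sk k) ^ M)
    (hlim : Tendsto (fun t : ℝ => ∑' k, ENNReal.ofReal (K1H52.L2.om (M + 3) k) * ‖fc (U t) k - a k‖ₑ) l (𝓝 0)) :
    Tendsto (fun t => ∫ x in cube, ∑ i, U t x i * φ t x i) l (𝓝 (pairing a (φ t₀))) := by
  obtain ⟨D, hD0, hD⟩ := fc_bound' hφ (M + 3) (t₀ + 1)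
  have hsum := om_summable ha
  have h01 : ∀ᶠ t in l, t ∈ Ioc (0 : ℝ) (t₀ + 1) := by
    filter_upwards [hl0, hl (Iio_mem_nhds (show t₀ < t₀ + 1 by linarith))] with t h1 h2
    exact ⟨h1, le_of_lt h2⟩
  -- the part with `a`
  have hQ : Tendsto (fun t => ∑' k, ∑ i, a k i * star (fc (φ t) k i)) l
      (𝓝 (∑' k, ∑ i, a k i * star (fc (φ t₀) k i))) := by
    refine tendsto_tsum_of_dominated_convergence (hsum.mul_left (3 * D)) (fun k => ?_) ?_
    · refine tendsto_finsetSum _ fun i _ => Tendsto.const_mul _ ?_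
      have hc : Continuous fun t => fc (φ t) k i := by
        simp_rw [fc_eq_fr]
        exact fr_cont (f := fun t x => φ t x i) (tf_comp hφ i).continuous k
      exact ((continuous_star.comp hc).tendsto t₀).mono_left hl
    · filter_upwards [h01] with t ht k
      refine (norm_pair_le fun i => hD t ⟨ht.1.le, ht.2⟩ k i).trans (le_of_eq ?_)
      ring
  -- the remainder
  have hR : Tendsto (fun t => ∑' k, ∑ i, (fc (U t) k - a k) i * star (fc (φ t) k i)) l (𝓝 0) := by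
    rw [tendsto_zero_iff_norm_tendsto_zero]
    have hfin : ∀ᶠ t in l, ∑' k, ENNReal.ofReal (K1H52.L2.om (M + 3) k) * ‖fc (U t) k - a k‖ₑ < 1 :=
      hlim.eventually (gt_mem_nhds one_pos)
    have hg : Tendsto (fun t => 3 * D * (∑' k, ENNReal.ofReal (K1H52.L2.om (M + 3) k) * ‖fc (U t) k - a k‖ₑ).toReal)
        l (𝓝 0) := by
      have := ((ENNReal.tendsto_toReal ENNReal.zero_ne_top).comp hlim).const_mul (3 * D)
      simpa using this
    refine squeeze_zero' (Filter.Eventually.of_forall fun t => norm_nonneg _) ?_ hg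
    filter_upwards [h01, hfin] with t ht hf
    have hne : ∑' k, ENNReal.ofReal (K1H52.L2.om (M + 3) k) * ‖fc (U t) k - a k‖ₑ ≠ ⊤ := (hf.trans ENNReal.one_lt_top).ne
    have e1 : ∀ k, (ENNReal.ofReal (K1H52.L2.om (M + 3) k) * ‖fc (U t) k - a k‖ₑ).toReal
        = K1H52.L2.om (M + 3) k * ‖fc (U t) k - a k‖ := by
      intro k
      rw [ENNReal.toReal_mul, ENNReal.toReal_ofReal (K1H52.L2.om_pos _ k).le, toReal_enorm]
    have s1 : Summable fun k => K1H52.L2.om (M + 3) k * ‖fc (U t) k - a k‖ := by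
      have := ENNReal.summable_toReal hne
      simpa only [e1] using this
    have s2 : ∑' k, K1H52.L2.om (M + 3) k * ‖fc (U t) k - a k‖
        = (∑' k, ENNReal.ofReal (K1H52.L2.om (M + 3) k) * ‖fc (U t) k - a k‖ₑ).toReal := by
      rw [ENNReal.tsum_toReal_eq (ENNReal.ne_top_of_tsum_ne_top hne)]
      exact tsum_congr fun k => (e1 k).symm
    rw [← s2, ← tsum_mul_left]
    refine tsum_of_norm_bounded (s1.mul_left (3 * D)).hasSum fun k => ?_
    refine (norm_pair_le fun i => hD t ⟨ht.1.le, ht.2⟩ k i).trans (le_of_eq ?_)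
    ring
  have hP := hQ.add hR
  rw [add_zero] at hP
  have hre := (Complex.continuous_re.tendsto _).comp hP
  unfold pairing
  refine hre.congr' ?_
  filter_upwards [h01] with t ht
  have hs := pair_formula hφ (hsp t ht.1)
  have sA : Summable fun k => ∑ i, a k i * star (fc (φ t) k i) := by
    refine Summable.of_norm_bounded (hsum.mul_left (3 * D)) fun k => ?_
    refine (norm_pair_le fun i => hD t ⟨ht.1.le, ht.2⟩ k i).trans (le_of_eq ?_)
    ring
  have e : ∀ k, ∑ i, (fc (U t) k - a k) i * star (fc (φ t) k i)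
      = ∑ i, fc (U t) k i * star (fc (φ t) k i) - ∑ i, a k i * star (fc (φ t) k i) := by
    intro k
    rw [← Finset.sum_sub_distrib]
    refine Finset.sum_congr rfl fun i _ => ?_
    rw [Pi.sub_apply]
    ring
  simp only [Function.comp_apply]
  simp_rw [e]
  rw [hs.summable.tsum_sub sA, hs.tsum_eq, add_sub_cancel, Complex.ofReal_re]

/-- the weighted norm is dominated by the norm of `H⁻¹` -/
lemma om_le_NH : ∃ C : ℝ≥0∞, C ≠ ⊤ ∧ ∀ b : K → C3, b 0 = 0 →
    ∑' k, ENNReal.ofReal (K1H52.L2.om (1 + 3) k) * ‖b k‖ₑ ≤ C * NH b := by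
  have hom : Summable fun k : K => K1H52.L2.om 3 k := by
    have h1 := om_summable (a := fun _ _ => (1 : ℂ)) (C := 1) (M := 0) (fun k => by
      rw [pow_zero, mul_one]
      refine (pi_norm_le_iff_of_nonneg zero_le_one).2 fun i => ?_
      simp)
    refine h1.of_nonneg_of_le (fun k => (K1H52.L2.om_pos _ _).le) fun k => ?_
    have h2 : (1 : ℝ) ≤ ‖(fun _ => 1 : Fin 3 → ℂ)‖ := by
      have := norm_le_pi_norm (fun _ => 1 : Fin 3 → ℂ) 0
      simpa using this
    have h3 := (K1H52.L2.om_pos 3 k).le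
    show K1H52.L2.om 3 k ≤ K1H52.L2.om (0 + 3) k * ‖(fun _ => 1 : Fin 3 → ℂ)‖
    exact le_mul_of_one_le_right h3 h2
  refine ⟨∑' k, ENNReal.ofReal (K1H52.L2.om 3 k), ?_, fun b hb0 => ?_⟩
  · rw [← ENNReal.ofReal_tsum_of_nonneg (fun k => (K1H52.L2.om_pos _ k).le) hom]
    exact ENNReal.ofReal_ne_top
  · by_cases hb : NH b = ⊤
    · have hne : (∑' k, ENNReal.ofReal (K1H52.L2.om 3 k)) ≠ 0 := by
        intro h
        have h1 := (ENNReal.tsum_eq_zero.1 h) 0
        rw [ENNReal.ofReal_eq_zero] at h1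
        exact absurd (K1H52.L2.om_pos 3 0) (not_lt.2 h1)
      rw [hb, ENNReal.mul_top hne]
      exact le_top
    · rw [← ENNReal.tsum_mul_right]
      refine ENNReal.tsum_le_tsum fun k => ?_
      by_cases hk : k = 0
      · subst hk
        rw [hb0, enorm_zero, mul_zero]
        exact zero_le
      · have h1 : ‖b k‖ ≤ (NH b).toReal * nk k := norm_le_NH hk ENNReal.toReal_nonneg (by rw [ENNReal.ofReal_toReal hb])
        have h2 : nk k ≤ 1 + sk k := by
          have h3 : nk k ^ 2 = sk k := nk_sq k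
          nlinarith [sq_nonneg (nk k - 1), nk_nonneg k]
        have h4 : K1H52.L2.om (1 + 3) k * ‖b k‖ ≤ K1H52.L2.om 3 k * (NH b).toReal := by
          have hs := sk_nonneg k
          have e1 : K1H52.L2.om (1 + 3) k = K1H52.L2.om 3 k * (1 + sk k)⁻¹ := by
            unfold K1H52.L2.om
            rw [show 1 + 3 = 3 + 1 from rfl, pow_succ, mul_inv]
          rw [e1, mul_assoc]
          refine mul_le_mul_of_nonneg_left ?_ (K1H52.L2.om_pos _ k).le
          rw [inv_mul_le_iff₀ (by positivity)]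
          calc ‖b k‖ ≤ (NH b).toReal * nk k := h1
            _ ≤ (NH b).toReal * (1 + sk k) := mul_le_mul_of_nonneg_left h2 ENNReal.toReal_nonneg
            _ = _ := mul_comm _ _
        calc ENNReal.ofReal (K1H52.L2.om (1 + 3) k) * ‖b k‖ₑ = ENNReal.ofReal (K1H52.L2.om (1 + 3) k * ‖b k‖) := by
              rw [ENNReal.ofReal_mul (K1H52.L2.om_pos _ k).le, ofReal_norm]
          _ ≤ ENNReal.ofReal (K1H52.L2.om 3 k * (NH b).toReal) := ENNReal.ofReal_le_ofReal h4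
          _ = _ := by rw [ENNReal.ofReal_mul (K1H52.L2.om_pos _ k).le, ENNReal.ofReal_toReal hb]

lemma om_tendsto {l : Filter ℝ} {f : ℝ → K → C3} (hf0 : ∀ᶠ t in l, f t 0 = 0)
    (h : Tendsto (fun t => hm1 (f t)) l (𝓝 0)) :
    Tendsto (fun t => ∑' k, ENNReal.ofReal (K1H52.L2.om (1 + 3) k) * ‖f t k‖ₑ) l (𝓝 0) := by
  obtain ⟨C, hC, hC'⟩ := om_le_NH
  have h1 : Tendsto (fun t => C * NH (f t)) l (𝓝 0) := by
    have := ENNReal.Tendsto.const_mul (a := C) (NH_tendsto h) (Or.inr hC)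
    rwa [mul_zero] at this
  refine tendsto_of_tendsto_of_tendsto_of_le_of_le' tendsto_const_nhds h1 (Eventually.of_forall fun _ => zero_le) ?_
  filter_upwards [hf0] with t ht
  exact hC' _ ht

end

/-- **The weak formulation across finitely many singular times.** -/
theorem weak_of_pieces {ν : ℝ} (hν : 0 < ν) {U : ℝ → E3 → E3} {S : Set ℝ} (hS : S.Finite) {a : K → C3}
    (ha : hm1 a ≠ ⊤) (ha0 : a 0 = 0)
    (hsp : ∀ t, 0 < t → ∀ i, SP fun x => U t x i)
    (hU0 : ∀ t, 0 < t → fc (U t) 0 = 0)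
    (hloc : ∀ t, 0 < t → t ∉ S → ∃ a b : ℝ, 0 < a ∧ a < t ∧ t < b ∧ ∃ p, IsSol ν (b - a) (fun s => U (a + s)) p)
    (hcont : ∀ t₀, 0 < t₀ → Tendsto (fun t => hm1 fun k => fc (U t) k - fc (U t₀) k) (𝓝 t₀) (𝓝 0))
    (hcont0 : Tendsto (fun t => hm1 fun k => fc (U t) k - a k) (𝓝[>] 0) (𝓝 0))
    (h2 : ∀ T : ℝ, ∫⁻ t in Ioc 0 T, ∫⁻ x in cube, ‖U t x‖ₑ ^ 2 ≠ ⊤)
    {φ : ℝ → E3 → E3} (hφ : TestField φ) :
    IntegrableOn (fun z : ℝ × E3 => weakInt ν U φ z.1 z.2) (Ioi 0 ×ˢ cube) ∧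
      (∫ z in Ioi (0 : ℝ) ×ˢ (cube : Set E3), weakInt ν U φ z.1 z.2) + pairing a (φ 0) = 0 := by
  have hUc := cont_off hloc
  have hint := weakInt_int_off hφ hS hUc h2 ν
  refine ⟨hint, ?_⟩
  obtain ⟨C, hC⟩ := growth_of_NH (a := a) ha
  have hpair : Tendsto (fun t => ∫ x in cube, ∑ i, U t x i * φ t x i) (𝓝[>] 0) (𝓝 (pairing a (φ 0))) := by
    refine pair_tendsto' hφ (M := 1) le_rfl nhdsWithin_le_nhds self_mem_nhdsWithin hsp hC ?_
    refine om_tendsto (f := fun t k => fc (U t) k - a k) ?_ hcont0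
    filter_upwards [self_mem_nhdsWithin] with t ht
    show fc (U t) 0 - a 0 = 0
    rw [hU0 t ht, ha0, sub_zero]
  have hGc : ∀ t₀, 0 < t₀ → ContinuousAt (fun t => ∫ x in cube, ∑ i, U t x i * φ t x i) t₀ := by
    intro t₀ h0
    have hne : hm1 (fc (U t₀)) ≠ ⊤ := by
      have h1 : ∀ᶠ t in 𝓝[>] (0 : ℝ), hm1 (fun k => fc (U t) k - a k) < 1 := hcont0.eventually (gt_mem_nhds one_pos)
      have hrap : SN (fc (U t₀)) := by
        refine Summable.of_nonneg_of_le (fun _ => norm_nonneg _) (fun k => ?_)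
          (summable_sum (s := Finset.univ) fun i _ => (H459R3.NS.rap_fr (hsp t₀ h0 i)).summable.norm)
        rw [pi_norm_le_iff_of_nonneg (Finset.sum_nonneg fun _ _ => norm_nonneg _)]
        intro i
        rw [fc_eq_fr]
        exact Finset.single_le_sum (f := fun i => ‖fr (fun x => U t₀ x i) k‖) (fun _ _ => norm_nonneg _)
          (Finset.mem_univ i)
      rw [hm1_eq]
      exact ENNReal.pow_ne_top (ne_top_of_le_ne_top ENNReal.ofReal_ne_top (NH_le_An hrap le_rfl))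
    obtain ⟨C', hC'⟩ := growth_of_NH (a := fc (U t₀)) hne
    have h1 := pair_tendsto' hφ (M := 1) (l := 𝓝 t₀) h0.le le_rfl (Ioi_mem_nhds h0) hsp hC' (by
      refine om_tendsto (f := fun t k => fc (U t) k - fc (U t₀) k) ?_ (hcont t₀ h0)
      filter_upwards [Ioi_mem_nhds h0] with t ht
      show fc (U t) 0 - fc (U t₀) 0 = 0
      rw [hU0 t ht, hU0 t₀ h0, sub_zero])
    have h3 : pairing (fc (U t₀)) (φ t₀) = ∫ x in cube, ∑ i, U t₀ x i * φ t₀ x i := by
      have hs := pair_formula hφ (U := U) (t := t₀) (hsp t₀ h0)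
      unfold pairing
      rw [hs.tsum_eq, Complex.ofReal_re]
    rw [h3] at h1
    exact h1
  have e1 : (volume : Measure (ℝ × E3)) = (volume : Measure ℝ).prod (volume : Measure E3) := rfl
  -- the integral over times after `t₀`
  have key : ∀ t₀ : ℝ, 0 < t₀ → ∫ z in Ioi t₀ ×ˢ (cube : Set E3), weakInt ν U φ z.1 z.2
      = -∫ x in cube, ∑ i, U t₀ x i * φ t₀ x i := by
    intro t₀ ht₀
    have hi : IntegrableOn (fun z : ℝ × E3 => weakInt ν U φ z.1 z.2) (Ioi t₀ ×ˢ cube) :=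
      hint.mono_set (prod_mono (Ioi_subset_Ioi ht₀.le) subset_rfl)
    have hi2 : IntegrableOn (fun t => ∫ x in cube, weakInt ν U φ t x) (Ioi t₀) := by
      have h3 : Integrable (fun z : ℝ × E3 => weakInt ν U φ z.1 z.2)
          ((volume.restrict (Ioi t₀)).prod (volume.restrict (cube : Set E3))) := by
        rw [Measure.prod_restrict]; exact hi
      exact h3.integral_prod_left
    rw [e1, setIntegral_prod _ (by rw [← e1]; exact hi)]
    obtain ⟨T, hT⟩ := hφ.support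
    set T1 := max T t₀ + 1 with hT1
    have hT1t : t₀ < T1 := by have := le_max_right T t₀; rw [hT1]; linarith
    have hTT1 : T < T1 := by have := le_max_left T t₀; rw [hT1]; linarith
    have hlate : ∫ t in Ioi T1, ∫ x in cube, weakInt ν U φ t x = 0 := by
      have : ∀ t ∈ Ioi T1, (∫ x in cube, weakInt ν U φ t x) = 0 := by
        intro t ht
        have h3 : ∀ x, weakInt ν U φ t x = 0 := fun x => weakInt_late hT (hTT1.trans ht) x
        simp_rw [h3]
        simp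
      rw [setIntegral_congr_fun measurableSet_Ioi this]
      simp
    have hsplit : ∫ t in Ioi t₀, (∫ x in cube, weakInt ν U φ t x) = ∫ t in t₀..T1, ∫ x in cube, weakInt ν U φ t x := by
      rw [intervalIntegral.integral_of_le hT1t.le]
      have h3 : Ioi t₀ = Ioc t₀ T1 ∪ Ioi T1 := (Ioc_union_Ioi_eq_Ioi hT1t.le).symm
      rw [h3, setIntegral_union (by
        rw [Set.disjoint_left]
        intro z hz1 hz2
        exact absurd hz1.2 (not_le.2 hz2)) measurableSet_Ioi (hi2.mono_set Ioc_subset_Ioi_self)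
        (hi2.mono_set (Ioi_subset_Ioi hT1t.le)), hlate, add_zero]
    rw [hsplit]
    have hii : IntervalIntegrable (fun t => ∫ x in cube, weakInt ν U φ t x) volume t₀ T1 := by
      rw [intervalIntegrable_iff_integrableOn_Ioc_of_le hT1t.le]
      exact hi2.mono_set Ioc_subset_Ioi_self
    have h4 := integral_eq_of_hasDerivAt_off_countable (fun t => ∫ x in cube, ∑ i, U t x i * φ t x i)
      (fun t => ∫ x in cube, weakInt ν U φ t x) (a := t₀) (b := T1) (s := S) hS.countable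
      (fun t ht => (hGc t (by rw [uIcc_of_le hT1t.le] at ht; exact ht₀.trans_le ht.1)).continuousWithinAt)
      (fun t ht => deriv_off hφ (hloc t (by
        have := ht.1.1
        rw [min_eq_left hT1t.le] at this
        exact ht₀.trans this) ht.2)) hii
    rw [h4]
    have h5 : ∫ x in cube, ∑ i, U T1 x i * φ T1 x i = 0 := by
      have : ∀ x, ∑ i, U T1 x i * φ T1 x i = 0 := by
        intro x
        refine Finset.sum_eq_zero fun i _ => ?_
        rw [hT T1 hTT1.le x, Pi.zero_apply, mul_zero]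
      simp_rw [this]
      simp
    rw [h5, zero_sub]
  -- the limit
  set s : ℕ → Set (ℝ × E3) := fun n => Ioi (1 / ((n : ℝ) + 1)) ×ˢ (cube : Set E3) with hs
  have hsU : ⋃ n, s n = Ioi (0 : ℝ) ×ˢ (cube : Set E3) := by
    ext z
    simp only [hs, mem_iUnion, mem_prod, mem_Ioi]
    constructor
    · rintro ⟨n, h1, h2⟩
      exact ⟨lt_trans (by positivity) h1, h2⟩
    · rintro ⟨h1, h2⟩
      obtain ⟨n, hn⟩ := exists_nat_one_div_lt h1
      exact ⟨n, hn, h2⟩
  have hmono : Monotone s := by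
    intro m n hmn
    refine prod_mono (Ioi_subset_Ioi ?_) subset_rfl
    have : (m : ℝ) ≤ n := by exact_mod_cast hmn
    exact one_div_le_one_div_of_le (by positivity) (by linarith)
  have hL := tendsto_setIntegral_of_monotone (f := fun z : ℝ × E3 => weakInt ν U φ z.1 z.2) (μ := volume) (s := s)
    (fun n => measurableSet_Ioi.prod measurableSet_Icc) hmono (by rw [hsU]; exact hint)
  rw [hsU] at hL
  have hseq : Tendsto (fun n : ℕ => 1 / ((n : ℝ) + 1)) atTop (𝓝[>] (0 : ℝ)) := by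
    refine tendsto_nhdsWithin_iff.2 ⟨tendsto_one_div_add_atTop_nhds_zero_nat, Filter.Eventually.of_forall fun n => ?_⟩
    show (0 : ℝ) < 1 / ((n : ℝ) + 1)
    positivity
  have hR := (hpair.comp hseq).neg
  have hL' : Tendsto (fun n : ℕ => -∫ x in cube, ∑ i, U (1 / ((n : ℝ) + 1)) x i * φ (1 / ((n : ℝ) + 1)) x i) atTop
      (𝓝 (∫ z in Ioi (0 : ℝ) ×ˢ (cube : Set E3), weakInt ν U φ z.1 z.2)) := by
    refine hL.congr fun n => ?_
    exact key _ (by positivity)
  have := tendsto_nhds_unique hL' hR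
  rw [this]
  ring

end Pool.Agent.H8.HP
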